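import Pool.Agent.U854.CL.Core

/-!
Approximation by integers, and families of algebraically independent functions on a line.
-/

set_option autoImplicit false

namespace Pool.Agent.U854.CL

open UpperHalfPlane H294ZP Function Pool.Agent.N135.ZO

variable {V : ValuationSubring ℂ} {p : ℕ}

/-- units near to rational numbers are near to integers -/
theorem RL.int (hl : p.Prime) (hpV : V.valuation (p : ℂ) < 1) {z : ℂ} (h : RL V z)
    (hz : V.valuation z = 1) : ∃ f : ℤ, V.valuation (z - f) < 1 := by
  obtain ⟨r, hr⟩ := h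
  have hvr : V.valuation (r : ℂ) = 1 := by rw [← val_of_near hr, hz]
  rw [hvr] at hr
  have hcop : IsCoprime r.num (r.den : ℤ) := by
    rw [Int.isCoprime_iff_gcd_eq_one]
    exact r.reduced
  have hden : ¬ (p : ℤ) ∣ (r.den : ℤ) := by
    intro hd
    have hnum : ¬ (p : ℤ) ∣ r.num := by
      intro hn
      have h1 : IsUnit (p : ℤ) := hcop.isUnit_of_dvd' hn hd
      exact (Nat.prime_iff_prime_int.1 hl).not_isUnit h1
    have h1 : (r.num : ℂ) = r * (r.den : ℂ) := by
      have := Rat.mul_den_eq_num r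
      exact_mod_cast this.symm
    have h2 := congrArg V.valuation h1
    rw [map_mul, hvr, one_mul, val_int hl hpV hnum] at h2
    obtain ⟨e, he⟩ := hd
    have h3 : V.valuation ((r.den : ℕ) : ℂ) < 1 := by
      have : ((r.den : ℕ) : ℂ) = (p : ℂ) * (e : ℤ) := by exact_mod_cast congrArg (fun z : ℤ => (z : ℂ)) he
      rw [this]
      exact lt_mul_mem hpV (intCast_mem V e)
    rw [← h2] at h3
    exact lt_irrefl _ h3
  have hvd := val_int hl hpV hden
  obtain ⟨a, b, hab⟩ : IsCoprime (r.den : ℤ) (p : ℤ) :=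
    ((Nat.prime_iff_prime_int.1 hl).irreducible.coprime_iff_not_dvd.2 hden).symm
  refine ⟨r.num * a, ?_⟩
  have hd0 : ((r.den : ℤ) : ℂ) ≠ 0 := by
    intro h
    rw [h, map_zero] at hvd
    exact zero_ne_one hvd
  have hr' : (r : ℂ) * ((r.den : ℤ) : ℂ) = (r.num : ℂ) := by
    have := Rat.mul_den_eq_num r
    exact_mod_cast this
  have habC : (a : ℂ) * ((r.den : ℤ) : ℂ) + b * (p : ℂ) = 1 := by
    exact_mod_cast congrArg (fun z : ℤ => (z : ℂ)) hab
  have e1 : z - ((r.num * a : ℤ) : ℂ) = (z - r) + (p : ℂ) * ((b : ℂ) * r) := by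
    push_cast
    rw [← hr']
    linear_combination -(r : ℂ) * habC
  rw [e1]
  refine Valuation.map_add_lt _ hr (lt_mul_mem hpV ?_)
  exact V.mul_mem _ _ (intCast_mem V b) ((V.valuation_le_one_iff _).1 hvr.le)

section alg

variable {F k : Type} [CommRing F] [IsDomain F] [Field k] [Algebra F k] [FaithfulSMul F k]

/-- algebraic functions of one parameter -/
theorem card_le_one_of_adjoin {ι : Type} (W : Finset ι) (y : ι → k) (t : k)
    (hy : ∀ i ∈ W, IsAlgebraic (Algebra.adjoin F {t}) (y i))
    (hind : AlgebraicIndependent F (fun i : W => y i)) : W.card ≤ 1 := by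
  classical
  have hinj : Function.Injective (fun i : W => y i) := hind.injective
  have h1 : (AlgebraicIndependent.matroid F k).Indep (Set.range fun i : W => y i) := by
    rw [AlgebraicIndependent.matroid_indep_iff]
    exact hind.coe_range
  have h2 : (Set.range fun i : W => y i) ⊆ (AlgebraicIndependent.matroid F k).closure {t} := by
    rintro _ ⟨i, rfl⟩
    rw [AlgebraicIndependent.matroid_closure_eq]
    exact hy i i.2
  have h3 := h1.encard_le_eRk_of_subset h2
  rw [Matroid.eRk_closure_eq] at h3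
  have h4 := h3.trans ((AlgebraicIndependent.matroid F k).eRk_le_encard {t})
  rw [Set.encard_singleton, ← Set.image_univ, hinj.encard_image, Set.encard_univ] at h4
  simpa using h4

theorem line_card {ι : Type} (W : Finset ι) (y : ι → k) (t : k)
    (hy : ∀ i ∈ W, ∃ a ∈ Algebra.adjoin F {t}, ∃ b ∈ Algebra.adjoin F {t}, y i = a / b)
    (hind : AlgebraicIndependent F (fun i : W => y i)) :
    W.card ≤ 1 ∧ (IsAlgebraic F t → W.card = 0) := by
  constructor
  · refine card_le_one_of_adjoin W y t (fun i hi => ?_) hind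
    obtain ⟨a, ha, b, hb, e⟩ := hy i hi
    rw [e, div_eq_mul_inv]
    exact (isAlgebraic_algebraMap (⟨a, ha⟩ : Algebra.adjoin F {t})).mul
      (isAlgebraic_algebraMap (⟨b, hb⟩ : Algebra.adjoin F {t})).inv
  · intro ht
    rw [Finset.card_eq_zero]
    by_contra hne
    obtain ⟨i, hi⟩ := Finset.nonempty_iff_ne_empty.2 hne
    obtain ⟨a, ha, b, hb, e⟩ := hy i hi
    refine hind.transcendental ⟨i, hi⟩ ?_
    show IsAlgebraic F (y i)
    rw [e, div_eq_mul_inv]
    exact (Algebra.isAlgebraic_adjoin_singleton_iff.2 ht a ha).mul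
      (Algebra.isAlgebraic_adjoin_singleton_iff.2 ht b hb).inv

end alg

end Pool.Agent.U854.CL
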