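import Pool.Agent.U854.OP.Tors

/-!
Multiplicative relations between numbers near to `1` whose first order terms are linearly
independent over `𝔽_p`.
-/

set_option autoImplicit false

namespace Pool.Agent.U854.CL

open Pool.Agent.U854.OP

section

variable {F : Type*} [Field F] (V : ValuationSubring F)

theorem mul_log_le {p : ℕ} (hp : p.Prime) {i : ℕ} {s : ℕ} (hs : p ^ s ≤ i) :
    (p - 1) * s ≤ i - 1 := by
  have h2 := hp.two_le
  have h : 1 + s * (p - 1) ≤ (1 + (p - 1)) ^ s := one_add_le_one_add_pow_aux s (p - 1)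
  have e : 1 + (p - 1) = p := by omega
  rw [e, mul_comm] at h
  omega
where
  one_add_le_one_add_pow_aux (s q : ℕ) : 1 + s * q ≤ (1 + q) ^ s := by
    induction s with
    | zero => simp
    | succ s ih =>
      calc 1 + (s + 1) * q ≤ (1 + s * q) * (1 + q) := by nlinarith [Nat.zero_le (s * q * q)]
        _ ≤ (1 + q) ^ s * (1 + q) := Nat.mul_le_mul_right _ ih
        _ = (1 + q) ^ (s + 1) := (pow_succ _ _).symm

/-- `|x|^(i-1) < |i|` for `i ≥ 2` -/
theorem pow_lt_natCast {p : ℕ} (hp : p.Prime) (hpV : V.valuation (p : F) < 1) {x : F}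
    (hx : V.valuation x ^ (p - 1) < V.valuation (p : F)) {i : ℕ} (hi : 2 ≤ i) :
    V.valuation x ^ (i - 1) < V.valuation (i : F) := by
  have hp1 : p - 1 ≠ 0 := by have := hp.two_le; omega
  have hi1 : i - 1 ≠ 0 := by omega
  obtain ⟨s, i', hi', rfl⟩ := Nat.exists_eq_pow_mul_and_not_dvd (n := i) (by omega) p hp.ne_one
  have hi'0 : i' ≠ 0 := by
    rintro rfl
    exact hi' (dvd_zero _)
  have hs : p ^ s ≤ p ^ s * i' := Nat.le_mul_of_pos_right _ (Nat.pos_of_ne_zero hi'0)
  have hle := mul_log_le hp hs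
  have hv : V.valuation ((p ^ s * i' : ℕ) : F) = V.valuation (p : F) ^ s := by
    rw [Nat.cast_mul, Nat.cast_pow, map_mul, map_pow, val_prime_to V hp hpV hi', mul_one]
  rw [hv]
  by_contra hcon
  have h1 : (V.valuation (p : F) ^ s) ^ (p - 1) ≤ (V.valuation x ^ (p ^ s * i' - 1)) ^ (p - 1) :=
    pow_le_pow_left₀ zero_le (not_lt.1 hcon) _
  have h2 : (V.valuation x ^ (p ^ s * i' - 1)) ^ (p - 1) < V.valuation (p : F) ^ (p ^ s * i' - 1) := by
    rw [← pow_mul, mul_comm, pow_mul]
    exact pow_lt_pow_left₀ hx zero_le hi1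
  have h3 : V.valuation (p : F) ^ (p ^ s * i' - 1) ≤ (V.valuation (p : F) ^ s) ^ (p - 1) := by
    rw [← pow_mul]
    refine pow_le_pow_of_le_one zero_le hpV.le ?_
    rw [mul_comm]
    exact hle
  exact absurd (h1.trans_lt (h2.trans_le h3)) (lt_irrefl _)

/-- the first order of a power -/
theorem pow_first {p : ℕ} (hp : p.Prime) (hpV : V.valuation (p : F) < 1) {x : F} (hx0 : x ≠ 0)
    (hx : V.valuation x ^ (p - 1) < V.valuation (p : F)) {b : ℕ} (hb : (b : F) ≠ 0) :
    V.valuation ((1 + x) ^ b - 1 - b * x) < V.valuation ((b : F) * x) := by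
  have hpos : 0 < V.valuation ((b : F) * x) :=
    zero_lt_iff.2 ((Valuation.ne_zero_iff _).2 (mul_ne_zero hb hx0))
  have hb0 : b ≠ 0 := by
    rintro rfl
    exact hb Nat.cast_zero
  have e : (1 + x) ^ b - 1 - b * x =
      ∑ i ∈ (Finset.range (b + 1)).filter (2 ≤ ·), x ^ i * (b.choose i : F) := by
    have h1 : (1 + x) ^ b = ∑ i ∈ Finset.range (b + 1), x ^ i * (b.choose i : F) := by
      rw [add_comm, add_pow]
      exact Finset.sum_congr rfl fun i _ => by rw [one_pow, mul_one]
    have h2 := Finset.sum_filter_add_sum_filter_not (Finset.range (b + 1)) (2 ≤ ·)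
      (fun i => x ^ i * (b.choose i : F))
    have h3 : (Finset.range (b + 1)).filter (fun i => ¬ 2 ≤ i) = {0, 1} := by
      ext i
      simp only [Finset.mem_filter, Finset.mem_range, Finset.mem_insert, Finset.mem_singleton]
      omega
    rw [h3, Finset.sum_insert (by simp), Finset.sum_singleton, ← h1] at h2
    rw [← h2]
    simp only [pow_zero, Nat.choose_zero_right, Nat.cast_one, mul_one, pow_one,
      Nat.choose_one_right]
    ring
  rw [e]
  refine Valuation.map_sum_lt _ hpos.ne' fun i hi => ?_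
  obtain ⟨hib, hi2⟩ := Finset.mem_filter.1 hi
  have hi2' : 2 ≤ i := hi2
  have h1 := pow_lt_natCast V hp hpV hx hi2'
  -- `i C(b, i) = b C(b-1, i-1)`
  have h2 : (i : F) * (b.choose i : F) = (b : F) * ((b - 1).choose (i - 1) : F) := by
    have h3 : b.choose i * i = b * (b - 1).choose (i - 1) := by
      obtain ⟨b', rfl⟩ := Nat.exists_eq_succ_of_ne_zero hb0
      obtain ⟨i', rfl⟩ := Nat.exists_eq_succ_of_ne_zero (by omega : i ≠ 0)
      have := Nat.add_one_mul_choose_eq b' i'
      simp only [Nat.succ_eq_add_one, Nat.add_sub_cancel]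
      rw [this]
    rw [mul_comm (i : F)]
    exact_mod_cast congrArg (Nat.cast : ℕ → F) h3
  have hxi : V.valuation x ≠ 0 := (Valuation.ne_zero_iff _).2 hx0
  have h4 : V.valuation (i : F) * V.valuation (b.choose i : F) ≤ V.valuation (b : F) := by
    rw [← map_mul, h2, map_mul]
    calc _ ≤ V.valuation (b : F) * 1 := mul_le_mul_right (val_natCast_le V _) _
      _ = _ := mul_one _
  have hi0 : V.valuation (i : F) ≠ 0 := fun h => by
    rw [h] at h1
    exact not_lt_zero h1
  have hbv : V.valuation (b : F) ≠ 0 := (Valuation.ne_zero_iff _).2 hb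
  rw [map_mul, map_pow, map_mul]
  by_cases hc0 : V.valuation (b.choose i : F) = 0
  · rw [hc0, mul_zero]
    rw [map_mul] at hpos
    exact hpos
  have e2 : V.valuation x ^ i = V.valuation x ^ (i - 1) * V.valuation x := by
    rw [← pow_succ]
    congr 1
    omega
  calc V.valuation x ^ i * V.valuation (b.choose i : F) =
        V.valuation x ^ (i - 1) * (V.valuation (b.choose i : F) * V.valuation x) := by
        rw [e2, mul_assoc, mul_comm (V.valuation x)]
    _ < V.valuation (i : F) * (V.valuation (b.choose i : F) * V.valuation x) :=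
        mul_lt_mul_of_pos_right h1 (zero_lt_iff.2 (mul_ne_zero hc0 hxi))
    _ = (V.valuation (i : F) * V.valuation (b.choose i : F)) * V.valuation x :=
        (mul_assoc _ _ _).symm
    _ ≤ V.valuation (b : F) * V.valuation x := mul_le_mul_left h4 _

theorem small_lt_one {p : ℕ} (hpV : V.valuation (p : F) < 1) {x : F}
    (hx : V.valuation x ^ (p - 1) < V.valuation (p : F)) : V.valuation x < 1 := by
  by_contra h
  have h1 : 1 ≤ V.valuation x ^ (p - 1) := one_le_pow₀ (not_lt.1 h)
  exact absurd (h1.trans_lt (hx.trans hpV)) (lt_irrefl _)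

theorem zpow_first {p : ℕ} [CharZero F] (hp : p.Prime) (hpV : V.valuation (p : F) < 1) {x : F}
    (hx : V.valuation x ^ (p - 1) < V.valuation (p : F)) (b : ℤ) {R : V.ValueGroup}
    (hR : 0 < R) (hb : V.valuation ((b : F) * x) ≤ R) :
    V.valuation ((1 + x) ^ b - 1 - b * x) < R := by
  by_cases hx0 : x = 0
  · rw [hx0, add_zero, one_zpow, sub_self, mul_zero, sub_zero, map_zero]
    exact hR
  by_cases hb0 : b = 0
  · rw [hb0, zpow_zero, Int.cast_zero, zero_mul, sub_self, sub_zero, map_zero]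
    exact hR
  have hx1 := small_lt_one V hpV hx
  obtain ⟨n, rfl | rfl⟩ := b.eq_nat_or_neg
  · have hn : ((n : ℤ) : F) ≠ 0 := Int.cast_ne_zero.2 hb0
    rw [Int.cast_natCast] at hn hb ⊢
    rw [zpow_natCast]
    exact (pow_first V hp hpV hx0 hx hn).trans_le hb
  · have hn : ((n : ℕ) : F) ≠ 0 := by
      intro h
      apply hb0
      have : (n : ℕ) = 0 := by exact_mod_cast h
      rw [this]
      rfl
    have hb' : V.valuation ((n : F) * x) ≤ R := by
      have e : (((-(n : ℤ) : ℤ) : F)) * x = -((n : F) * x) := by push_cast; ring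
      rwa [e, Valuation.map_neg] at hb
    have h1 := pow_first V hp hpV hx0 hx hn
    have hw1 : V.valuation ((1 + x) ^ n) = 1 := by rw [map_pow, val_one_add V hx1, one_pow]
    have hw0 : (1 + x) ^ n ≠ 0 := by
      rw [← (V.valuation).ne_zero_iff, hw1]
      exact one_ne_zero
    have hpos : 0 < V.valuation ((n : F) * x) :=
      zero_lt_iff.2 ((Valuation.ne_zero_iff _).2 (mul_ne_zero hn hx0))
    have hle : V.valuation ((1 + x) ^ n - 1) < 1 := by
      have e : (1 + x) ^ n - 1 = ((1 + x) ^ n - 1 - n * x) + n * x := by ring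
      rw [e]
      refine Valuation.map_add_lt _ (h1.trans_le ?_) ?_
      · rw [map_mul]
        exact mul_le_one₀ (val_natCast_le V n) zero_le hx1.le
      · rw [map_mul]
        calc V.valuation (n : F) * V.valuation x ≤ 1 * V.valuation x :=
              mul_le_mul_left (val_natCast_le V n) _
          _ = V.valuation x := one_mul _
          _ < 1 := hx1
    have e : (1 + x) ^ (-(n : ℤ)) - 1 - ((-(n : ℤ) : ℤ) : F) * x =
        (-((1 + x) ^ n - 1 - n * x) + n * x * ((1 + x) ^ n - 1)) / (1 + x) ^ n := by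
      rw [zpow_neg, zpow_natCast]
      push_cast
      field_simp
      ring
    rw [e, map_div₀, hw1, div_one]
    refine Valuation.map_add_lt _ ?_ ?_
    · rw [Valuation.map_neg]
      exact h1.trans_le hb'
    · rw [map_mul]
      calc V.valuation ((n : F) * x) * V.valuation ((1 + x) ^ n - 1) <
            V.valuation ((n : F) * x) * 1 := mul_lt_mul_of_pos_left hle hpos
        _ = V.valuation ((n : F) * x) := mul_one _
        _ ≤ R := hb'

/-- the first order of a product -/
theorem prod_first {ι : Type*} (S : Finset ι) (t : ι → F) {R : V.ValueGroup} (hR : 0 < R)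
    (hR1 : R < 1) (ht : ∀ i ∈ S, V.valuation (t i - 1) ≤ R) :
    V.valuation (∏ i ∈ S, t i - 1 - ∑ i ∈ S, (t i - 1)) < R := by
  classical
  have key : V.valuation (∏ i ∈ S, t i - 1) ≤ R ∧
      V.valuation (∏ i ∈ S, t i - 1 - ∑ i ∈ S, (t i - 1)) ≤ R * R := by
    induction S using Finset.induction_on with
    | empty => simp
    | insert a S ha ih =>
      obtain ⟨h1, h2⟩ := ih fun i hi => ht i (Finset.mem_insert_of_mem hi)
      have h3 := ht a (Finset.mem_insert_self a S)
      have hRR : R * R ≤ R := by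
        calc R * R ≤ R * 1 := mul_le_mul_right hR1.le R
          _ = R := mul_one R
      have e2 : ∏ i ∈ insert a S, t i - 1 - ∑ i ∈ insert a S, (t i - 1) =
          (t a - 1) * (∏ i ∈ S, t i - 1) + (∏ i ∈ S, t i - 1 - ∑ i ∈ S, (t i - 1)) := by
        rw [Finset.prod_insert ha, Finset.sum_insert ha]
        ring
      have e1 : ∏ i ∈ insert a S, t i - 1 =
          (t a - 1) * (∏ i ∈ S, t i - 1) + ((∏ i ∈ S, t i - 1) + (t a - 1)) := by
        rw [Finset.prod_insert ha]
        ring
      have h4 : V.valuation ((t a - 1) * (∏ i ∈ S, t i - 1)) ≤ R * R := by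
        rw [map_mul]
        exact mul_le_mul' h3 h1
      refine ⟨?_, ?_⟩
      · rw [e1]
        exact Valuation.map_add_le _ (h4.trans hRR) (Valuation.map_add_le _ h1 h3)
      · rw [e2]
        exact Valuation.map_add_le _ h4 h2
  refine key.2.trans_lt ?_
  calc R * R < R * 1 := mul_lt_mul_of_pos_left hR1 hR
    _ = R := mul_one R

/-- an integer of absolute value `|p|^e` -/
theorem int_val {p : ℕ} (hp : p.Prime) (hpV : V.valuation (p : F) < 1) {a : ℤ} (ha : a ≠ 0) :
    ∃ (e : ℕ) (a' : ℤ), a = (p : ℤ) ^ e * a' ∧ ¬ (p : ℤ) ∣ a' ∧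
      V.valuation (a : F) = V.valuation (p : F) ^ e := by
  obtain ⟨e, n', hn', hn⟩ := Nat.exists_eq_pow_mul_and_not_dvd (Int.natAbs_ne_zero.2 ha) p hp.ne_one
  have key : ∀ c : ℤ, c = (n' : ℤ) ∨ c = -(n' : ℤ) → ¬ (p : ℤ) ∣ c ∧
      V.valuation (((p : ℤ) ^ e * c : ℤ) : F) = V.valuation (p : F) ^ e := by
    intro c hc
    have h1 : V.valuation (c : F) = 1 := by
      rcases hc with rfl | rfl
      · rw [Int.cast_natCast]
        exact val_prime_to V hp hpV hn'
      · rw [Int.cast_neg, Int.cast_natCast, Valuation.map_neg]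
        exact val_prime_to V hp hpV hn'
    refine ⟨?_, ?_⟩
    · intro h
      apply hn'
      rcases hc with rfl | rfl
      · exact Int.natCast_dvd_natCast.1 h
      · exact Int.natCast_dvd_natCast.1 ((dvd_neg).1 h)
    · push_cast
      rw [map_mul, map_pow, h1, mul_one]
  rcases Int.natAbs_eq a with h | h
  · have e1 : a = (p : ℤ) ^ e * (n' : ℤ) := by rw [h, hn]; push_cast; ring
    obtain ⟨h1, h2⟩ := key _ (Or.inl rfl)
    exact ⟨e, _, e1, h1, by rw [e1]; exact h2⟩
  · have e1 : a = (p : ℤ) ^ e * (-(n' : ℤ)) := by rw [h, hn]; push_cast; ring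
    obtain ⟨h1, h2⟩ := key _ (Or.inr rfl)
    exact ⟨e, _, e1, h1, by rw [e1]; exact h2⟩

/-- Numbers near to `1` whose first order terms are linearly independent over `𝔽_p` are
multiplicatively independent. -/
theorem torus_free [CharZero F] {p : ℕ} (hp : p.Prime) (hpV : V.valuation (p : F) < 1)
    {ι : Type*} [Fintype ι] (J : Finset ι) (ν y : ι → F) (hν0 : ∀ j ∈ J, ν j ≠ 0)
    (hν : ∀ j ∈ J, V.valuation (ν j) ^ (p - 1) < V.valuation (p : F))
    (hy : ∀ j ∈ J, V.valuation (y j) ≤ 1)
    (hcomp : ∀ j ∈ J, ∀ j' ∈ J, (∃ s t : ℕ, ν j * (p : F) ^ s = ν j' * (p : F) ^ t) ∨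
      ∀ s t : ℕ, V.valuation (ν j * (p : F) ^ s) ≠ V.valuation (ν j' * (p : F) ^ t))
    (hind : ∀ j₀ ∈ J, ∀ b : ι → ℤ,
      (∀ j, b j ≠ 0 → j ∈ J ∧ ∃ s t : ℕ, ν j * (p : F) ^ s = ν j₀ * (p : F) ^ t) →
      V.valuation (∑ j, (b j : F) * y j) < 1 → ∀ j, (p : ℤ) ∣ b j)
    {a : ι → ℤ} (ha : ∀ j, j ∉ J → a j = 0) {N : ℕ} (hN : 0 < N)
    (hrel : (∏ j, (1 + ν j * y j) ^ a j) ^ N = 1) : a = 0 := by
  classical
  by_contra hne
  have hpF : (p : F) ≠ 0 := by exact_mod_cast hp.ne_zero
  have hvp0 : V.valuation (p : F) ≠ 0 := (Valuation.ne_zero_iff _).2 hpF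
  have hvp : 0 < V.valuation (p : F) := zero_lt_iff.2 hvp0
  -- exponents multiplied by `N`
  let c : ι → ℤ := fun j => N * a j
  have hN0 : (N : ℤ) ≠ 0 := by exact_mod_cast hN.ne'
  have hc0 : ∀ j, c j ≠ 0 ↔ a j ≠ 0 := fun j => by
    simp only [c, ne_eq, mul_eq_zero, not_or]
    exact ⟨fun h => h.2, fun h => ⟨hN0, h⟩⟩
  have hcJ : ∀ j, c j ≠ 0 → j ∈ J := fun j h => by
    by_contra hj
    exact (hc0 j).1 h (ha j hj)
  have hrel' : ∏ j ∈ J, (1 + ν j * y j) ^ c j = 1 := by
    refine Eq.trans ?_ hrel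
    rw [← Finset.prod_pow, ← Finset.prod_subset (Finset.subset_univ J)
      (f := fun j => ((1 + ν j * y j) ^ a j) ^ N) (fun j _ hj => by
        rw [ha j hj, zpow_zero, one_pow])]
    refine Finset.prod_congr rfl fun j _ => ?_
    rw [← zpow_natCast, ← zpow_mul, mul_comm (a j)]
  have hcne : ∃ j, c j ≠ 0 := by
    by_contra h
    push Not at h
    apply hne
    funext j
    by_contra hj
    exact (hc0 j).2 hj (h j)
  -- the largest term
  obtain ⟨j₁, hj₁⟩ := hcne
  obtain ⟨j₀, hj₀mem, hmax⟩ := Finset.exists_max_image (Finset.univ.filter fun j => c j ≠ 0)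
    (fun j => V.valuation ((c j : F) * ν j)) ⟨j₁, Finset.mem_filter.2 ⟨Finset.mem_univ _, hj₁⟩⟩
  have hj₀c : c j₀ ≠ 0 := (Finset.mem_filter.1 hj₀mem).2
  have hj₀ : j₀ ∈ J := hcJ j₀ hj₀c
  set R := V.valuation ((c j₀ : F) * ν j₀) with hRdef
  have hR : 0 < R := zero_lt_iff.2 ((Valuation.ne_zero_iff _).2
    (mul_ne_zero (Int.cast_ne_zero.2 hj₀c) (hν0 j₀ hj₀)))
  have hint : ∀ z : ℤ, V.valuation (z : F) ≤ 1 := fun z =>
    (V.valuation_le_one_iff _).2 (intCast_mem V z)
  have hR1 : R < 1 := by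
    rw [hRdef, map_mul]
    calc V.valuation (c j₀ : F) * V.valuation (ν j₀) ≤ 1 * V.valuation (ν j₀) :=
          mul_le_mul_left (hint _) _
      _ = V.valuation (ν j₀) := one_mul _
      _ < 1 := small_lt_one V hpV (hν j₀ hj₀)
  have hle : ∀ j ∈ J, V.valuation ((c j : F) * ν j) ≤ R := by
    intro j _
    by_cases hcj : c j = 0
    · rw [hcj, Int.cast_zero, zero_mul, map_zero]
      exact zero_le
    · exact hmax j (Finset.mem_filter.2 ⟨Finset.mem_univ _, hcj⟩)
  have hle' : ∀ j ∈ J, V.valuation ((c j : F) * (ν j * y j)) ≤ R := by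
    intro j hj
    rw [← mul_assoc, map_mul]
    calc V.valuation ((c j : F) * ν j) * V.valuation (y j) ≤ R * 1 :=
          mul_le_mul' (hle j hj) (hy j hj)
      _ = R := mul_one R
  have hfirst : ∀ j ∈ J, V.valuation ((1 + ν j * y j) ^ c j - 1 - (c j : F) * (ν j * y j)) < R := by
    intro j hj
    refine zpow_first V hp hpV ?_ (c j) hR (hle' j hj)
    refine lt_of_le_of_lt ?_ (hν j hj)
    refine pow_le_pow_left₀ zero_le ?_ _
    rw [map_mul]
    calc V.valuation (ν j) * V.valuation (y j) ≤ V.valuation (ν j) * 1 := mul_le_mul_right (hy j hj) _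
      _ = V.valuation (ν j) := mul_one _
  have hsum : V.valuation (∑ j ∈ J, (c j : F) * (ν j * y j)) < R := by
    have h1 := prod_first V J (fun j => (1 + ν j * y j) ^ c j) hR hR1 (fun j hj => by
      have e : (1 + ν j * y j) ^ c j - 1 =
          ((1 + ν j * y j) ^ c j - 1 - (c j : F) * (ν j * y j)) + (c j : F) * (ν j * y j) := by ring
      rw [e]
      exact Valuation.map_add_le _ (hfirst j hj).le (hle' j hj))
    rw [hrel', sub_self, zero_sub, Valuation.map_neg] at h1
    have h2 : V.valuation (∑ j ∈ J, ((1 + ν j * y j) ^ c j - 1 - (c j : F) * (ν j * y j))) < R :=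
      Valuation.map_sum_lt _ hR.ne' hfirst
    have e : ∑ j ∈ J, (c j : F) * (ν j * y j) = ∑ j ∈ J, ((1 + ν j * y j) ^ c j - 1) -
        ∑ j ∈ J, ((1 + ν j * y j) ^ c j - 1 - (c j : F) * (ν j * y j)) := by
      rw [← Finset.sum_sub_distrib]
      exact Finset.sum_congr rfl fun j _ => by ring
    rw [e]
    exact Valuation.map_sub_lt _ h1 h2
  -- the terms of the class of `j₀`
  obtain ⟨e, a₀, hce, ha₀, hve⟩ := int_val V hp hpV hj₀c
  have hb : ∀ j, ∃ b : ℤ, (b ≠ 0 → j ∈ J ∧ ∃ s t : ℕ, ν j * (p : F) ^ s = ν j₀ * (p : F) ^ t) ∧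
      ((j ∈ J ∧ ∃ s t : ℕ, ν j * (p : F) ^ s = ν j₀ * (p : F) ^ t) →
        (c j : F) * ν j = b * ((p : F) ^ e * ν j₀)) := by
    intro j
    by_cases hj : j ∈ J ∧ ∃ s t : ℕ, ν j * (p : F) ^ s = ν j₀ * (p : F) ^ t
    · by_cases hcj : c j = 0
      · exact ⟨0, fun h => absurd rfl h, fun _ => by rw [hcj]; simp⟩
      obtain ⟨u, a₁, hcu, -, hvu⟩ := int_val V hp hpV hcj
      obtain ⟨s, t, hst⟩ := hj.2
      have hexp : s + e ≤ u + t := by
        by_contra hlt
        push Not at hlt
        have h1 := hle j hj.1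
        rw [hRdef, map_mul, map_mul, hvu, hve] at h1
        have h2 : V.valuation (ν j) * V.valuation (p : F) ^ s =
            V.valuation (ν j₀) * V.valuation (p : F) ^ t := by
          rw [← map_pow, ← map_mul, hst, map_mul, map_pow]
        have h3 : V.valuation (ν j₀) * V.valuation (p : F) ^ (u + t) ≤
            V.valuation (ν j₀) * V.valuation (p : F) ^ (s + e) := by
          calc V.valuation (ν j₀) * V.valuation (p : F) ^ (u + t) =
                V.valuation (p : F) ^ u * (V.valuation (ν j₀) * V.valuation (p : F) ^ t) := by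
                rw [pow_add, mul_left_comm]
            _ = V.valuation (p : F) ^ s * (V.valuation (p : F) ^ u * V.valuation (ν j)) := by
                rw [← h2, mul_comm (V.valuation (ν j)), mul_left_comm]
            _ ≤ V.valuation (p : F) ^ s * (V.valuation (p : F) ^ e * V.valuation (ν j₀)) :=
                mul_le_mul_right h1 _
            _ = V.valuation (ν j₀) * V.valuation (p : F) ^ (s + e) := by
                rw [pow_add, ← mul_assoc, mul_comm]
        have hν₀ : 0 < V.valuation (ν j₀) :=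
          zero_lt_iff.2 ((Valuation.ne_zero_iff _).2 (hν0 j₀ hj₀))
        have h4 : V.valuation (p : F) ^ (u + t) ≤ V.valuation (p : F) ^ (s + e) :=
          le_of_mul_le_mul_left h3 hν₀
        have h5 : V.valuation (p : F) ^ (s + e) < V.valuation (p : F) ^ (u + t) :=
          pow_lt_pow_right_of_lt_one₀ hvp hpV hlt
        exact absurd (h4.trans_lt h5) (lt_irrefl _)
      refine ⟨a₁ * (p : ℤ) ^ (u + t - (s + e)), fun _ => hj, fun _ => ?_⟩
      have hps : (p : F) ^ s ≠ 0 := pow_ne_zero _ hpF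
      apply mul_right_cancel₀ hps
      have hk : (p : F) ^ (u + t - (s + e)) * (p : F) ^ (s + e) = (p : F) ^ (u + t) := by
        rw [← pow_add]
        congr 1
        omega
      rw [hcu]
      push_cast
      rw [pow_add, pow_add] at hk
      linear_combination (p : F) ^ u * (a₁ : F) * hst - (a₁ : F) * ν j₀ * hk
    · exact ⟨0, fun h => absurd rfl h, fun h => absurd h hj⟩
  choose b hb1 hb2 using hb
  have hq0 : (p : F) ^ e * ν j₀ ≠ 0 := mul_ne_zero (pow_ne_zero _ hpF) (hν0 j₀ hj₀)
  have hRq : R = V.valuation ((p : F) ^ e * ν j₀) := by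
    rw [hRdef, map_mul, hve, map_mul, map_pow]
  have hsmall : V.valuation (∑ j, (b j : F) * y j) < 1 := by
    have e1 : ∑ j, (b j : F) * y j = ∑ j ∈ J, (b j : F) * y j := by
      symm
      refine Finset.sum_subset (Finset.subset_univ J) fun j _ hj => ?_
      have : b j = 0 := by
        by_contra h
        exact hj (hb1 j h).1
      rw [this, Int.cast_zero, zero_mul]
    have h1 : V.valuation (((p : F) ^ e * ν j₀) * ∑ j ∈ J, (b j : F) * y j) < R := by
      have e2 : ((p : F) ^ e * ν j₀) * ∑ j ∈ J, (b j : F) * y j =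
          ∑ j ∈ J, (c j : F) * (ν j * y j) -
          ∑ j ∈ J, ((c j : F) * (ν j * y j) - ((p : F) ^ e * ν j₀) * ((b j : F) * y j)) := by
        rw [← Finset.sum_sub_distrib, Finset.mul_sum]
        exact Finset.sum_congr rfl fun j _ => by ring
      rw [e2]
      refine Valuation.map_sub_lt _ hsum (Valuation.map_sum_lt _ hR.ne' fun j hj => ?_)
      by_cases hcl : ∃ s t : ℕ, ν j * (p : F) ^ s = ν j₀ * (p : F) ^ t
      · have h2 := hb2 j ⟨hj, hcl⟩
        have e3 : (c j : F) * (ν j * y j) - ((p : F) ^ e * ν j₀) * ((b j : F) * y j) = 0 := by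
          linear_combination y j * h2
        rw [e3, map_zero]
        exact hR
      · have hbj : b j = 0 := by
          by_contra h
          exact hcl (hb1 j h).2
        rw [hbj, Int.cast_zero, zero_mul, mul_zero, sub_zero]
        rw [← mul_assoc, map_mul]
        have h3 : V.valuation ((c j : F) * ν j) < R := by
          refine lt_of_le_of_ne (hle j hj) fun h => ?_
          have hcj : c j ≠ 0 := by
            intro h0
            rw [h0, Int.cast_zero, zero_mul, map_zero] at h
            exact hR.ne h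
          obtain ⟨u, a₁, -, -, hvu⟩ := int_val V hp hpV hcj
          rcases hcomp j hj j₀ hj₀ with h4 | h4
          · exact hcl h4
          · refine h4 u e ?_
            rw [map_mul, map_mul, map_pow, map_pow]
            rw [hRq, map_mul, map_mul, map_pow, hvu] at h
            rw [mul_comm (V.valuation (ν j)), mul_comm (V.valuation (ν j₀))]
            exact h
        calc V.valuation ((c j : F) * ν j) * V.valuation (y j) ≤ V.valuation ((c j : F) * ν j) * 1 :=
              mul_le_mul_right (hy j hj) _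
          _ = V.valuation ((c j : F) * ν j) := mul_one _
          _ < R := h3
    rw [map_mul, ← hRq] at h1
    rw [e1]
    by_contra hge
    have h2 : R * 1 ≤ R * V.valuation (∑ j ∈ J, (b j : F) * y j) :=
      mul_le_mul_right (not_lt.1 hge) _
    rw [mul_one] at h2
    exact absurd (h2.trans_lt h1) (lt_irrefl _)
  have hdvd := hind j₀ hj₀ b (fun j h => hb1 j h) hsmall j₀
  have hb0 : b j₀ = a₀ := by
    have h1 := hb2 j₀ ⟨hj₀, 0, 0, rfl⟩
    rw [← mul_assoc] at h1
    have h2 := mul_right_cancel₀ (hν0 j₀ hj₀) h1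
    rw [hce] at h2
    push_cast at h2
    rw [mul_comm (b j₀ : F)] at h2
    have h3 := mul_left_cancel₀ (pow_ne_zero e hpF) h2
    exact_mod_cast h3.symm
  rw [hb0] at hdvd
  exact ha₀ hdvd

end

end Pool.Agent.U854.CL
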