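import Pool.Agent.U854.CL.Jinj
import Pool.Agent.U854.OP.Core

/-!
Isogenous coordinates near to CM points.
-/

set_option autoImplicit false

namespace Pool.Agent.U854.CL

open UpperHalfPlane H294ZP Function Pool.Agent.N135.ZO

variable {V : ValuationSubring ℂ} {p : ℕ}

theorem g0_of (hl : p.Prime) (hpV : V.valuation (p : ℂ) < 1) (P : Pkg p hl.pos) {τ : ℍ}
    (hord : OrdAt p τ) (h0 : V.valuation (jj τ) = 1) (h1 : V.valuation (jj τ - 1728) = 1) :
    G0 P V (jj τ) := by
  obtain ⟨e, M, he, hdet, htr, hfix⟩ := hord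
  have hmem : jj τ ∈ V := (V.valuation_le_one_iff _).1 h0.le
  exact ⟨hmem, ord_of_fix hl hpV P hmem he hdet htr hfix, h0, h1⟩

/-- two isogenous points near to CM points -/
theorem two_near (hl : p.Prime) (hl2 : p ≠ 2) (hpV : V.valuation (p : ℂ) < 1) {τ τ' : ℍ}
    (hcm : IsCM τ) (hcm' : IsCM τ') (hord : OrdAt p τ) (hord' : OrdAt p τ')
    (h0 : V.valuation (jj τ) = 1) (h1 : V.valuation (jj τ - 1728) = 1)
    (h0' : V.valuation (jj τ') = 1) (h1' : V.valuation (jj τ' - 1728) = 1)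
    {x x' : ℂ} (hx : x ≠ jj τ) (hx' : x' ≠ jj τ')
    (hlt : V.valuation (x - jj τ) ^ (p - 1) < V.valuation (p : ℂ))
    (hlt' : V.valuation (x' - jj τ') ^ (p - 1) < V.valuation (p : ℂ))
    {w w' : ℍ} (hw : jj w = x) (hw' : jj w' = x') {M : M2} (hM : 0 < M.det) (hrel : Rel M w w') :
    Isog (jj τ) (jj τ') ∧
    (∃ s t : ℕ, V.valuation (x - jj τ) * V.valuation (p : ℂ) ^ s =
      V.valuation (x' - jj τ') * V.valuation (p : ℂ) ^ t) ∧
    (jj τ = jj τ' → RL V ((x' - jj τ') / (x - jj τ))) := by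
  obtain ⟨P⟩ := exists_pkg hl hl2
  have hp0 : (p : ℂ) ≠ 0 := by exact_mod_cast hl.ne_zero
  have hG := g0_of hl hpV P hord h0 h1
  have hG' := g0_of hl hpV P hord' h0' h1'
  have hp1 : p - 1 ≠ 0 := by
    have := hl.two_le
    omega
  have small : ∀ {z : ℂ}, V.valuation z ^ (p - 1) < V.valuation (p : ℂ) → V.valuation z < 1 := by
    intro z hz
    by_contra hcon
    push Not at hcon
    exact absurd (hz.trans hpV) (not_lt.2 (one_le_pow_of_one_le' hcon _))
  have hs := small hlt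
  have hs' := small hlt'
  subst hw hw'
  have hGw : G0 P V (jj w) := hG.congr hs
  have hGw' : G0 P V (jj w') := hG'.congr hs'
  let c : TT P V := ⟨τ, hG⟩
  let c' : TT P V := ⟨τ', hG'⟩
  let s : TT P V := ⟨w, hGw⟩
  let s' : TT P V := ⟨w', hGw'⟩
  have hcl : Cl p (xv s - xv c) := cl_of_val hp0 (by push_cast; exact hlt)
  have hcl' : Cl p (xv s' - xv c') := cl_of_val hp0 (by push_cast; exact hlt')
  have hne : xv s ≠ xv c := fun h => hx (congrArg (fun z : V => (z : ℂ)) h)
  have hne' : xv s' ≠ xv c' := fun h => hx' (congrArg (fun z : V => (z : ℂ)) h)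
  refine ⟨near_isog hl hl2 hpV P hcm hcm' hG hG' hM hrel hs hs', ?_, ?_⟩
  · obtain ⟨h⟩ := exists_comp (hl := hl) hl2 hpV c c' hcm hcm' s s' hM hrel hcl hcl' hne hne'
    exact ⟨h.i, h.j, (h.val (sub_ne_zero.2 hx) hl.ne_zero).symm⟩
  · intro hj
    have hcl2 : Cl p (xv s' - xv c) := cl_of_val hp0 (by
      push_cast
      change V.valuation (jj w' - jj τ) ^ (p - 1) < _
      rw [hj]
      exact hlt')
    have hne2 : xv s' ≠ xv c := fun h => hx' (by
      have := congrArg (fun z : V => (z : ℂ)) h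
      change jj w' = jj τ at this
      rw [this, hj])
    obtain ⟨h⟩ := exists_comp (hl := hl) hl2 hpV c c hcm hcm s s' hM hrel hcl hcl2 hne hne2
    have ht' : jj w' - jj τ ≠ 0 := by
      rw [hj]
      exact sub_ne_zero.2 hx'
    have h2 : RL V ((jj w' - jj τ) / (jj w - jj τ)) :=
      Comp.rl (c := τ) (t := jj w - jj τ) (t' := jj w' - jj τ) jinj hl hpV h (sub_ne_zero.2 hx) ht'
        (dd_ne c) hord
    rwa [← hj]

/-- The coordinates near to the cusp or to ordinary CM points: they are not constant, and two of them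
of the same class are both near to the cusp, or near to isogenous CM points, at distances whose
quotient is a power of `p` up to units, and near to a rational number if the CM points are equal. -/
theorem class_pair (hl : p.Prime) (hpV : V.valuation (p : ℂ) < 1) {n : ℕ} (C : Finset (Fin n))
    (τ : Fin n → ℍ) (h2 : ∀ i, i ∉ C → p ≠ 2) (hcm : ∀ i, i ∉ C → IsCM (τ i))
    (hord : ∀ i, i ∉ C → OrdAt p (τ i)) (h0 : ∀ i, i ∉ C → V.valuation (jj (τ i)) = 1)
    (h1 : ∀ i, i ∉ C → V.valuation (jj (τ i) - 1728) = 1) {r : ℕ} (Z : SpecialDatum n r)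
    {x : Fin n → ℂ} (hxZ : x ∈ Z.locus) (T : Finset (Fin n))
    (hC : ∀ i ∈ T, i ∈ C → 1 < V.valuation (x i))
    (hO : ∀ i ∈ T, i ∉ C → x i ≠ jj (τ i) ∧
      V.valuation (x i - jj (τ i)) ^ (p - 1) < V.valuation (p : ℂ)) (i : Fin n) (hi : i ∈ T) :
    Z.cls i ≠ none ∧ ∀ j ∈ T, Z.cls i = Z.cls j → (i ∈ C ∧ j ∈ C) ∨
      (i ∉ C ∧ j ∉ C ∧ Isog (jj (τ i)) (jj (τ j)) ∧
        (∃ s t : ℕ, V.valuation (x i - jj (τ i)) * V.valuation (p : ℂ) ^ s =
          V.valuation (x j - jj (τ j)) * V.valuation (p : ℂ) ^ t) ∧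
        (jj (τ i) = jj (τ j) → RL V ((x j - jj (τ j)) / (x i - jj (τ i))))) := by
  classical
  have hmemx : ∀ i ∈ T, i ∉ C → x i ∈ V := by
    intro i hi hiC
    have hlt := (hO i hi hiC).2
    have hs : V.valuation (x i - jj (τ i)) ≤ 1 := by
      by_contra hcon
      push Not at hcon
      exact absurd (hlt.trans hpV) (not_lt.2 (one_le_pow_of_one_le' hcon.le _))
    have e : x i = jj (τ i) + (x i - jj (τ i)) := by ring
    rw [e]
    exact V.add_mem _ _ ((V.valuation_le_one_iff _).1 (h0 i hiC).le)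
      ((V.valuation_le_one_iff _).1 hs)
  have hnone : Z.cls i ≠ none := by
    intro hn
    obtain ⟨z, hz⟩ := hxZ
    have hxi := (hz i).1 hn
    by_cases hiC : i ∈ C
    · have h3 := hC i hi hiC
      have h4 : x i ∈ V := by
        rw [hxi]
        exact mem_of_integral_int V (singular_modulus_integral _ (Z.isCM i))
      exact absurd ((V.valuation_le_one_iff _).2 h4) (not_le.2 h3)
    · obtain ⟨P⟩ := exists_pkg hl (h2 i hiC)
      obtain ⟨hne, hlt⟩ := hO i hi hiC
      have hs : V.valuation (x i - jj (τ i)) < 1 := by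
        by_contra hcon
        push Not at hcon
        exact absurd (hlt.trans hpV) (not_lt.2 (one_le_pow_of_one_le' hcon _))
      rw [hxi] at hne hlt hs
      obtain ⟨k, hk⟩ := cm_radius hl (h2 i hiC) hpV P (hcm i hiC) (Z.isCM i)
        (g0_of hl hpV P (hord i hiC) (h0 i hiC) (h1 i hiC)) hs hne
      have h5 : V.valuation (jj (Z.cm i) - jj (τ i)) ^ ((p - 1) * p ^ k) ≤
          V.valuation (jj (Z.cm i) - jj (τ i)) ^ (p - 1) :=
        pow_le_pow_right_of_le_one' hs.le (Nat.le_mul_of_pos_right _ (pow_pos hl.pos _))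
      rw [hk] at h5
      exact absurd hlt (not_lt.2 h5)
  refine ⟨hnone, ?_⟩
  intro j hj hcls
  obtain ⟨k, hk⟩ := Option.ne_none_iff_exists'.1 hnone
  have hk' : Z.cls j = some k := hcls ▸ hk
  obtain ⟨z, hz⟩ := hxZ
  have hxZ' : x ∈ Z.locus := ⟨z, hz⟩
  obtain ⟨w, hw1, hw2⟩ := (hz i).2 k hk
  obtain ⟨w', hw1', hw2'⟩ := (hz j).2 k hk'
  by_cases hiC : i ∈ C
  · by_cases hjC : j ∈ C
    · exact Or.inl ⟨hiC, hjC⟩
    · exfalso
      have h3 := rel_of_class isogenous_integral Z hxZ' hk' hk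
      have h4 := mem_of_integral V (hmemx j hj hjC) h3
      exact absurd ((V.valuation_le_one_iff _).2 h4) (not_le.2 (hC i hi hiC))
  · by_cases hjC : j ∈ C
    · exfalso
      have h3 := rel_of_class isogenous_integral Z hxZ' hk hk'
      have h4 := mem_of_integral V (hmemx i hi hiC) h3
      exact absurd ((V.valuation_le_one_iff _).2 h4) (not_le.2 (hC j hj hjC))
    · right
      refine ⟨hiC, hjC, ?_⟩
      obtain ⟨A, hA, hrel⟩ := rel_of_two (M := Z.mat i) (M' := Z.mat j) (z := z k) (Z.det_pos i)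
        (Z.det_pos j) hw1 hw1'
      exact two_near hl (h2 i hiC) hpV (hcm i hiC) (hcm j hjC) (hord i hiC) (hord j hjC)
        (h0 i hiC) (h1 i hiC) (h0 j hjC) (h1 j hjC) (hO i hi hiC).1 (hO j hj hjC).1
        (hO i hi hiC).2 (hO j hj hjC).2 hw2.symm hw2'.symm hA hrel

/-- the number of coordinates in different classes -/
theorem card_le_classes {n r : ℕ} (cls : Fin n → Option (Fin r)) (T : Finset (Fin n))
    (hnone : ∀ i ∈ T, cls i ≠ none) (hinj : ∀ i ∈ T, ∀ j ∈ T, i ≠ j → cls i ≠ cls j) :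
    T.card ≤ r := by
  classical
  have hcard : T.card = (T.image cls).card := by
    rw [Finset.card_image_of_injOn]
    intro i hi j hj hij
    by_contra hne
    exact hinj i hi j hj hne hij
  have hsub : T.image cls ⊆ (Finset.univ : Finset (Fin r)).image some := by
    intro c hc
    obtain ⟨i, hi, rfl⟩ := Finset.mem_image.1 hc
    obtain ⟨k, hk⟩ := Option.ne_none_iff_exists'.1 (hnone i hi)
    rw [hk]
    exact Finset.mem_image_of_mem _ (Finset.mem_univ k)
  calc T.card = (T.image cls).card := hcard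
    _ ≤ _ := Finset.card_le_card hsub
    _ ≤ (Finset.univ : Finset (Fin r)).card := Finset.card_image_le
    _ = r := by simp

end Pool.Agent.U854.CL
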