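import Pool.Agent.U854.CL.Nx

/-!
Derivatives of the action of matrices, and the first order law for iterated canonical quotients.
-/

set_option autoImplicit false

namespace Pool.Agent.U854.CL

open UpperHalfPlane H294ZP Function Polynomial Pool.Agent.N135.ZO
open Pool.Agent.Y226 (ZZ ιZ ιZ_apply)

/-- the derivative of the action of `M` -/
noncomputable def der (M : M2) (τ : ℍ) : ℂ := (M.det : ℂ) / den M τ ^ 2

theorem der_mul {A B : M2} {τ w : ℍ} (h : Rel B τ w) : der (A * B) τ = der A w * der B τ := by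
  unfold der
  rw [den_mul h, Matrix.det_mul, Int.cast_mul, mul_pow, mul_div_mul_comm]

theorem der_ne {M : M2} (hM : 0 < M.det) (τ : ℍ) : der M τ ≠ 0 :=
  div_ne_zero (by exact_mod_cast hM.ne') (pow_ne_zero _ (den_ne hM τ))

theorem der_one (τ : ℍ) : der 1 τ = 1 := by
  unfold der
  rw [den_one]
  simp

theorem hasDeriv_comp {M : M2} (hM : 0 < M.det) {τ w : ℍ} (h : Rel M τ w) {f : ℍ → ℂ}
    (hf : Hol f) {F : ℍ → ℂ} (hF : ∀ z z' : ℍ, Rel M z z' → F z = f z') :
    HasDerivAt (F ∘ ofComplex) (der M τ * dd f w) (τ : ℂ) := by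
  have hd0 : den M τ ≠ 0 := den_ne hM τ
  have h1 := hasDerivAt_dd hf w
  have e1 : (w : ℂ) = num M τ / den M τ := by
    rw [eq_div_iff hd0]
    exact h
  rw [e1] at h1
  have h2 : HasDerivAt (fun z : ℂ => ((M 0 0 : ℂ) * z + M 0 1) / ((M 1 0 : ℂ) * z + M 1 1))
      (der M τ) (τ : ℂ) := by
    have ha : HasDerivAt (fun z : ℂ => (M 0 0 : ℂ) * z + M 0 1) ((M 0 0 : ℂ) * 1) (τ : ℂ) :=
      ((hasDerivAt_id (τ : ℂ)).const_mul (M 0 0 : ℂ)).add_const (M 0 1 : ℂ)
    have hb : HasDerivAt (fun z : ℂ => (M 1 0 : ℂ) * z + M 1 1) ((M 1 0 : ℂ) * 1) (τ : ℂ) :=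
      ((hasDerivAt_id (τ : ℂ)).const_mul (M 1 0 : ℂ)).add_const (M 1 1 : ℂ)
    refine (ha.div hb hd0).congr_deriv ?_
    unfold der den
    rw [det_eq]
    push_cast
    congr 1
    ring
  have h3 := HasDerivAt.comp (τ : ℂ) (h₂ := f ∘ ofComplex) (h := fun z : ℂ => ((M 0 0 : ℂ) * z + M 0 1) / ((M 1 0 : ℂ) * z + M 1 1)) h1 h2
  have h4 : (F ∘ ofComplex) =ᶠ[nhds (τ : ℂ)] ((f ∘ ofComplex) ∘
      fun z : ℂ => ((M 0 0 : ℂ) * z + M 0 1) / ((M 1 0 : ℂ) * z + M 1 1)) := by
    filter_upwards [isOpen_upperHalfPlaneSet.mem_nhds τ.im_pos] with z hz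
    have hz' : 0 < z.im := hz
    obtain ⟨w1, hw1⟩ := exists_rel hM (ofComplex z)
    have hz2 : ((ofComplex z : ℍ) : ℂ) = z := by rw [ofComplex_apply_of_im_pos hz']
    have hw2 : (w1 : ℂ) = ((M 0 0 : ℂ) * z + M 0 1) / ((M 1 0 : ℂ) * z + M 1 1) := by
      have hd := den_ne hM (ofComplex z)
      have h5 : (w1 : ℂ) = num M (ofComplex z) / den M (ofComplex z) := by
        rw [eq_div_iff hd]
        exact hw1
      rw [h5]
      unfold Pool.Agent.N135.ZO.num Pool.Agent.N135.ZO.den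
      rw [hz2]
    simp only [Function.comp]
    rw [← hw2, ofComplex_apply]
    exact hF _ _ hw1
  refine (h3.congr_of_eventuallyEq h4).congr_deriv ?_
  ring

theorem dd_comp' {M : M2} (hM : 0 < M.det) {τ w : ℍ} (h : Rel M τ w) {f : ℍ → ℂ}
    (hf : Hol f) {F : ℍ → ℂ} (hF : ∀ z z' : ℍ, Rel M z z' → F z = f z') :
    dd F τ = der M τ * dd f w := (hasDeriv_comp hM h hf hF).deriv

/-- the derivative of `j` at equivalent points -/
theorem dd_sl {M : M2} (hM : M.det = 1) {τ w : ℍ} (h : Rel M τ w) :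
    dd jj τ = der M τ * dd jj w :=
  dd_comp' (by rw [hM]; norm_num) h hTA.2.1 fun _ _ hz => (Rel.jj hM hz).symm

theorem dd_hh {l : ℕ} (hl : 0 < l) (k : Option (Fin l)) (τ : ℍ) :
    dd (fun w => jj (hh hl k w)) τ = der (gk l k) τ * dd jj (hh hl k τ) := by
  have hdet : 0 < (gk l k).det := by
    rw [det_gk]
    exact_mod_cast hl
  refine dd_comp' hdet (rel_hh hl k τ) hTA.2.1 fun z z' hz => ?_
  rw [Rel.unique hdet hz (rel_hh hl k z)]

/-- the sixth power of the derivative of an isogeny -/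
theorem ratio6 {M : M2} (hM : 0 < M.det) {τ w : ℍ} :
    (M.det : ℂ) ^ 6 * (der M τ * dd jj w) ^ 6 * (jj τ ^ 4 * (jj τ - 1728) ^ 3) =
      GG M τ w * (jj w ^ 4 * (jj w - 1728) ^ 3) * dd jj τ ^ 6 := by
  rw [mul_pow, dd_jj6, dd_jj6]
  unfold der GG
  have hd := ModularForm.discriminant_ne_zero τ
  have hd0 := den_ne hM τ
  have hN : (M.det : ℂ) ≠ 0 := by exact_mod_cast hM.ne'
  field_simp

variable {V : ValuationSubring ℂ} {p : ℕ}

/-- derivatives of isogenies of degree prime to `p` at good points are units -/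
theorem val_ratio {hl : 0 < p} {P : Pkg p hl} {M : M2} (hM : 0 < M.det)
    (hMV : V.valuation (M.det : ℂ) = 1) {τ w : ℍ} (h : Rel M τ w) (hτ : G0 P V (jj τ))
    (hw : G0 P V (jj w)) {s : ℂ} (hs : s * dd jj τ = der M τ * dd jj w) : V.valuation s = 1 := by
  have h6 := ratio6 hM (τ := τ) (w := w)
  rw [← hs] at h6
  have hnz0 : jj τ ≠ 0 := by
    intro h
    have := hτ.n0
    rw [h, map_zero] at this
    exact zero_ne_one this
  have hnz1 : jj τ ≠ 1728 := by
    intro h
    have := hτ.n1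
    rw [h, sub_self, map_zero] at this
    exact zero_ne_one this
  have hdd := dd_jj_ne hnz0 hnz1
  have h7 : (M.det : ℂ) ^ 6 * s ^ 6 * (jj τ ^ 4 * (jj τ - 1728) ^ 3) =
      GG M τ w * (jj w ^ 4 * (jj w - 1728) ^ 3) := by
    have h8 : dd jj τ ^ 6 ≠ 0 := pow_ne_zero _ hdd
    apply mul_right_cancel₀ h8
    rw [← h6]
    ring
  have h8 := congrArg V.valuation h7
  rw [map_mul, map_mul, map_mul, map_mul, map_mul, map_pow, map_pow, map_pow, map_pow, map_pow,
    map_pow, hτ.n0, hτ.n1, hw.n0, hw.n1, hMV, GG_unit hM hMV h hτ.mem] at h8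
  simp only [one_pow, mul_one, one_mul] at h8
  exact (pow_left_inj₀ zero_le zero_le (by norm_num)).1 (h8.trans (one_pow 6).symm)

theorem dd_ne {hl : 0 < p} {P : Pkg p hl} (s : TT P V) : dd jj s.1 ≠ 0 := by
  refine dd_jj_ne ?_ ?_
  · intro h
    have := s.2.n0
    rw [h, map_zero] at this
    exact zero_ne_one this
  · intro h
    have := s.2.n1
    rw [h, sub_self, map_zero] at this
    exact zero_ne_one this

variable {hl : p.Prime} {P : Pkg p hl.pos}

/-- the first order law for the iterated canonical quotient -/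
theorem iter_law (hl2 : p ≠ 2) (hpV : V.valuation (p : ℂ) < 1) (S : Op hl P V) (s : TT P V)
    (m : ℕ) : ∃ (D : V) (G : M2), V.valuation (D : ℂ) = V.valuation (p : ℂ) ^ m ∧
      0 < G.det ∧ Rel G s.1 (S.nx^[m] s).1 ∧
      (D : ℂ) * dd jj s.1 = der G s.1 * dd jj (S.nx^[m] s).1 ∧
      ∀ s' : TT P V, Cl p (xv s' - xv s) → Cl p (xv (S.nx^[m] s') - xv (S.nx^[m] s)) ∧
        ∃ ν : V, ¬ IsUnit ν ∧ xv (S.nx^[m] s') - xv (S.nx^[m] s) = (xv s' - xv s) * (D * (1 + ν)) := by
  have hpB : (p : ℂ) ≠ 0 := by exact_mod_cast hl.ne_zero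
  induction m with
  | zero =>
    refine ⟨1, 1, by simp, by simp, rel_one _, ?_, ?_⟩
    · rw [der_one]
      simp
    · intro s' hs'
      exact ⟨hs', 0, not_isUnit_zero, by simp⟩
  | succ m ih =>
    obtain ⟨D, G, hD, hG, hrel, hder, hlaw⟩ := ih
    set t := S.nx^[m] s with ht
    obtain ⟨k, hk, hs⟩ := S.spec t
    have hφ : (xv (S.nx t) : ℂ) = jj (hh hl.pos k t.1) := by rw [xv_coe, hs]
    obtain ⟨D1, hD1, hder1, hlaw1⟩ := first_order hl hl2 hpV P hk.1 (x := xv t)
      (φ := xv (S.nx t)) rfl hφ (xv_h t) (xv_0 t) (xv_1 t)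
    have hit : S.nx^[m + 1] s = S.nx t := by rw [iterate_succ_apply', ht]
    refine ⟨D1 * D, gk p k * G, ?_, ?_, ?_, ?_, ?_⟩
    · push_cast
      rw [map_mul, hD, hD1, pow_succ']
    · rw [det_mul', det_gk]
      have : (0 : ℤ) < p := by exact_mod_cast hl.pos
      positivity
    · rw [hit, hs]
      exact hrel.mul (rel_hh hl.pos k t.1)
    · rw [hit, der_mul hrel, hs]
      have e := dd_hh hl.pos k t.1
      rw [← hder1] at e
      push_cast
      linear_combination (D1 : ℂ) * hder + der G s.1 * e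
    · intro s' hs'
      obtain ⟨hcl, ν, hν, e1⟩ := hlaw s' hs'
      set t' := S.nx^[m] s' with ht'
      have hit' : S.nx^[m + 1] s' = S.nx t' := by rw [iterate_succ_apply', ht']
      rw [hit, hit']
      obtain ⟨ν1, hν1, e2⟩ := hlaw1 (xv t') (xv (S.nx t')) (xv_h t') (S.phi t') hcl
      -- `D1 = p D'`
      have hD'm : (p : ℂ) / (D1 : ℂ) ∈ V := by
        rw [← V.valuation_le_one_iff, map_div₀, hD1]
        exact div_self_le_one _
      have hD10 : (D1 : ℂ) ≠ 0 := by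
        intro h0
        rw [h0, map_zero] at hD1
        exact (V.valuation.ne_zero_iff.2 hpB) hD1.symm
      obtain ⟨D', hD'⟩ : ∃ D' : V, (p : V) = D1 * D' := by
        refine ⟨⟨_, hD'm⟩, ?_⟩
        apply Subtype.ext
        push_cast
        rw [mul_div_cancel₀ _ hD10]
      obtain ⟨D'', hD''⟩ : ∃ D'' : V, D1 = p * D'' := by
        have hm : (D1 : ℂ) / p ∈ V := by
          rw [← V.valuation_le_one_iff, map_div₀, hD1]
          exact div_self_le_one _
        refine ⟨⟨_, hm⟩, ?_⟩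
        apply Subtype.ext
        push_cast
        rw [mul_div_cancel₀ _ hpB]
      constructor
      · rw [e2, hD'']
        have : (xv t' - xv t) * (p * D'' + p * ν1) = p * (xv t' - xv t) * (D'' + ν1) := by ring
        rw [this]
        exact Cl.next hl hl2 hpV _ _
      · refine ⟨ν + D' * ν1 * (1 + ν), ?_, ?_⟩
        · refine nonunit_add hν ?_
          rw [mul_comm D', mul_assoc]
          exact not_unit_mul hν1
        · rw [e2, e1]
          linear_combination (xv s' - xv s) * D * (1 + ν) * ν1 * hD'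

end Pool.Agent.U854.CL
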