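import Pool.Agent.U854.CL.Rat

/-!
Isogenous points near to CM points.
-/

set_option autoImplicit false

namespace Pool.Agent.U854.CL

open UpperHalfPlane H294ZP Function Polynomial Pool.Agent.N135.ZO

variable {V : ValuationSubring ℂ} {p : ℕ} {hl : p.Prime} {P : Pkg p hl.pos}

/-- the comparison of two isogenous points near to CM points -/
structure Comp (V : ValuationSubring ℂ) (p : ℕ) (c c' : ℍ) (t t' : ℂ) where
  i : ℕ
  j : ℕ
  D : ℂ
  D' : ℂ
  σ : ℂ
  G : M2
  G' : M2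
  A : M2
  u : ℍ
  u' : ℍ
  w : ℍ
  hD : V.valuation D = V.valuation (p : ℂ) ^ i
  hD' : V.valuation D' = V.valuation (p : ℂ) ^ j
  hσ : V.valuation σ = 1
  det_G : 0 < G.det
  det_G' : 0 < G'.det
  det_A : 0 < A.det
  rel_G : Rel G c u
  rel_G' : Rel G' c' u'
  rel_A : Rel A u w
  der_G : D * dd jj c = der G c * dd jj u
  der_G' : D' * dd jj c' = der G' c' * dd jj u'
  der_A : σ * dd jj u = der A u * dd jj w
  j_eq : jj w = jj u'
  n0 : jj u' ≠ 0
  n1 : jj u' ≠ 1728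
  near : V.valuation (t' * D' / (t * D) - σ) < 1

theorem val_nonunit {a : V} (h : ¬ IsUnit a) : V.valuation (a : ℂ) < 1 := by
  rw [V.valuation_eq_one_iff] at h
  exact lt_of_ne_one a.2 h

theorem exists_comp (hl2 : p ≠ 2) (hpV : V.valuation (p : ℂ) < 1) (c c' : TT P V)
    (hc : IsCM c.1) (hc' : IsCM c'.1) (s s' : TT P V) {M : M2} (hM : 0 < M.det)
    (hrel : Rel M s.1 s'.1) (hcl : Cl p (xv s - xv c)) (hcl' : Cl p (xv s' - xv c'))
    (h0 : xv s ≠ xv c) (h0' : xv s' ≠ xv c') :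
    Nonempty (Comp V p c.1 c'.1 (jj s.1 - jj c.1) (jj s'.1 - jj c'.1)) := by
  have hpB : V.valuation (p : ℂ) ≠ 0 := by
    rw [Valuation.ne_zero_iff]
    exact_mod_cast hl.ne_zero
  obtain ⟨S⟩ := exists_op hl hl2 hpV P
  obtain ⟨i0, j0, N, hN, hNV, hRN⟩ := prime_to_p hl2 hpV S hM hrel
  obtain ⟨N, rfl⟩ : ∃ n : ℕ, N = n := ⟨N.toNat, by omega⟩
  have hN' : 0 < N := by exact_mod_cast hN
  have hNV' : V.valuation (N : ℂ) = 1 := by exact_mod_cast hNV
  obtain ⟨F⟩ := exists_fam hN'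
  set k := Fintype.card F.ι + 1 with hk
  have hRN2 := rn_nx_iter hpV S hN hNV k hRN
  rw [← iterate_add_apply, ← iterate_add_apply] at hRN2
  obtain ⟨D, G, hD, hG, hrelG, hderG, hlaw⟩ := iter_law hl2 hpV S c (k + i0)
  obtain ⟨D', G', hD', hG', hrelG', hderG', hlaw'⟩ := iter_law hl2 hpV S c' (k + j0)
  obtain ⟨-, ν, hν, e1⟩ := hlaw s hcl
  obtain ⟨-, ν', hν', e1'⟩ := hlaw' s' hcl'
  have hone : ∀ {a : V}, ¬ IsUnit a → V.valuation ((1 + a : V) : ℂ) = 1 := by
    intro a ha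
    push_cast
    exact val_add_one (map_one _) (val_nonunit ha)
  set δ := xv (S.nx^[k + i0] s) - xv (S.nx^[k + i0] c) with hδ
  set δ' := xv (S.nx^[k + j0] s') - xv (S.nx^[k + j0] c') with hδ'
  have ht0 : V.valuation ((xv s - xv c : V) : ℂ) ≠ 0 := by
    rw [Valuation.ne_zero_iff]
    exact fun h => h0 (sub_eq_zero.1 (Subtype.ext h))
  have ht0' : V.valuation ((xv s' - xv c' : V) : ℂ) ≠ 0 := by
    rw [Valuation.ne_zero_iff]
    exact fun h => h0' (sub_eq_zero.1 (Subtype.ext h))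
  have vδ : V.valuation (δ : ℂ) = V.valuation ((xv s - xv c : V) : ℂ) * V.valuation (p : ℂ) ^ (k + i0) := by
    rw [e1]
    have : (((xv s - xv c) * (D * (1 + ν)) : V) : ℂ) =
        ((xv s - xv c : V) : ℂ) * ((D : ℂ) * ((1 + ν : V) : ℂ)) := by push_cast; ring
    rw [this, map_mul, map_mul, hD, hone hν, mul_one]
  have vδ' : V.valuation (δ' : ℂ) =
      V.valuation ((xv s' - xv c' : V) : ℂ) * V.valuation (p : ℂ) ^ (k + j0) := by
    rw [e1']
    have : (((xv s' - xv c') * (D' * (1 + ν')) : V) : ℂ) =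
        ((xv s' - xv c' : V) : ℂ) * ((D' : ℂ) * ((1 + ν' : V) : ℂ)) := by push_cast; ring
    rw [this, map_mul, map_mul, hD', hone hν', mul_one]
  have small : ∀ (t : V) (i : ℕ), V.valuation (t : ℂ) * V.valuation (p : ℂ) ^ (k + i) <
      V.valuation (p : ℂ) ^ Fintype.card F.ι := by
    intro t i
    calc V.valuation (t : ℂ) * V.valuation (p : ℂ) ^ (k + i) ≤ 1 * V.valuation (p : ℂ) ^ (k + i) :=
          mul_le_mul_left (val_le t.2) _
      _ = V.valuation (p : ℂ) ^ (Fintype.card F.ι) * V.valuation (p : ℂ) ^ (1 + i) := by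
          rw [one_mul, hk, add_assoc, pow_add]
      _ < V.valuation (p : ℂ) ^ (Fintype.card F.ι) * 1 := by
          refine mul_lt_mul_of_pos_left (pow_lt_one₀ zero_le hpV (by omega)) (zero_lt_iff.2
            (pow_ne_zero _ hpB))
      _ = _ := mul_one _
  have hδ0 : (δ : ℂ) ≠ 0 := by
    rw [← V.valuation.ne_zero_iff, vδ]
    exact mul_ne_zero ht0 (pow_ne_zero _ hpB)
  have hδ0' : (δ' : ℂ) ≠ 0 := by
    rw [← V.valuation.ne_zero_iff, vδ']
    exact mul_ne_zero ht0' (pow_ne_zero _ hpB)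
  have hne : xv (S.nx^[k + i0] s) ≠ xv (S.nx^[k + i0] c) := by
    intro h
    apply hδ0
    rw [hδ, h, sub_self]
    rfl
  have hne' : xv (S.nx^[k + j0] s') ≠ xv (S.nx^[k + j0] c') := by
    intro h
    apply hδ0'
    rw [hδ', h, sub_self]
    rfl
  have hcm : IsCM (S.nx^[k + i0] c).1 := isCM_of_rel hG hrelG hc
  have hcm' : IsCM (S.nx^[k + j0] c').1 := isCM_of_rel hG' hrelG' hc'
  have hle : V.valuation (δ' : ℂ) ≤ V.valuation (δ : ℂ) := by
    by_contra hcon
    push Not at hcon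
    have hm : (δ : ℂ) / δ' ∈ V := by
      rw [← V.valuation_le_one_iff, map_div₀]
      exact (div_le_one₀ (zero_lt_iff.2 (V.valuation.ne_zero_iff.2 hδ0'))).2 hcon.le
    obtain ⟨-, -, σ, -, -, -, -, hσ, hθ⟩ := lead hl hl2 hpV P hN' hNV' F (S.nx^[k + j0] c')
      (S.nx^[k + i0] c) hcm' hcm (S.nx^[k + j0] s') (S.nx^[k + i0] s) hRN2.symm hne'
      (by rw [← hδ', vδ']; exact small _ _) ⟨_, hm⟩ (by
        rw [← hδ', ← hδ]
        apply Subtype.ext
        push_cast
        rw [div_mul_cancel₀ _ hδ0'])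
    have h1 : V.valuation ((δ : ℂ) / δ') = 1 := by
      rw [← hσ]
      exact val_of_near (by rw [hσ]; exact hθ)
    rw [map_div₀, div_eq_one_iff_eq (V.valuation.ne_zero_iff.2 hδ0')] at h1
    exact hcon.ne h1
  have hm : (δ' : ℂ) / δ ∈ V := by
    rw [← V.valuation_le_one_iff, map_div₀]
    exact (div_le_one₀ (zero_lt_iff.2 (V.valuation.ne_zero_iff.2 hδ0))).2 hle
  obtain ⟨A, w, σ, hA, hrelA, hjw, hderA, hσ, hθ⟩ := lead hl hl2 hpV P hN' hNV' F (S.nx^[k + i0] c)
    (S.nx^[k + j0] c') hcm hcm' (S.nx^[k + i0] s) (S.nx^[k + j0] s') hRN2 hne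
    (by rw [← hδ, vδ]; exact small _ _) ⟨_, hm⟩ (by
      rw [← hδ', ← hδ]
      apply Subtype.ext
      push_cast
      rw [div_mul_cancel₀ _ hδ0])
  refine ⟨⟨k + i0, k + j0, D, D', σ, G, G', A, _, _, w, hD, hD', hσ, hG, hG', by rw [hA]; exact hN,
    hrelG, hrelG', hrelA, hderG, hderG', hderA, hjw, ?_, ?_, ?_⟩⟩
  · intro h
    have := (S.nx^[k + j0] c').2.n0
    rw [h, map_zero] at this
    exact zero_ne_one this
  · intro h
    have := (S.nx^[k + j0] c').2.n1
    rw [h, sub_self, map_zero] at this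
    exact zero_ne_one this
  · -- the quotient
    have hν1 : ((1 + ν : V) : ℂ) ≠ 0 := by
      rw [← V.valuation.ne_zero_iff, hone hν]
      exact one_ne_zero
    have hν1' : ((1 + ν' : V) : ℂ) ≠ 0 := by
      rw [← V.valuation.ne_zero_iff, hone hν']
      exact one_ne_zero
    have hD0 : (D : ℂ) ≠ 0 := by
      rw [← V.valuation.ne_zero_iff, hD]
      exact pow_ne_zero _ hpB
    have hT0 : ((xv s - xv c : V) : ℂ) ≠ 0 := V.valuation.ne_zero_iff.1 ht0
    have e2 : (δ : ℂ) = ((xv s - xv c : V) : ℂ) * ((D : ℂ) * ((1 + ν : V) : ℂ)) := by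
      rw [e1]
      push_cast
      ring
    have e2' : (δ' : ℂ) = ((xv s' - xv c' : V) : ℂ) * ((D' : ℂ) * ((1 + ν' : V) : ℂ)) := by
      rw [e1']
      push_cast
      ring
    have e3 : (jj s'.1 - jj c'.1) * (D' : ℂ) / ((jj s.1 - jj c.1) * (D : ℂ)) =
        (δ' : ℂ) / δ * (((1 + ν : V) : ℂ) / ((1 + ν' : V) : ℂ)) := by
      have f1 : jj s.1 - jj c.1 = ((xv s - xv c : V) : ℂ) := by push_cast; rfl
      have f2 : jj s'.1 - jj c'.1 = ((xv s' - xv c' : V) : ℂ) := by push_cast; rfl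
      rw [f1, f2, e2, e2']
      field_simp
    have vθ : V.valuation ((δ' : ℂ) / δ) = 1 := by
      rw [← hσ]
      exact val_of_near (by rw [hσ]; exact hθ)
    have e4 : (δ' : ℂ) / δ * (((1 + ν : V) : ℂ) / ((1 + ν' : V) : ℂ)) - σ =
        ((δ' : ℂ) / δ - σ) + (δ' : ℂ) / δ * (((ν : ℂ) - ν') / ((1 + ν' : V) : ℂ)) := by
      have : ((1 + ν : V) : ℂ) / ((1 + ν' : V) : ℂ) = 1 + ((ν : ℂ) - ν') / ((1 + ν' : V) : ℂ) := by
        rw [eq_comm, one_add_div hν1']
        congr 1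
        push_cast
        ring
      rw [this]
      ring
    rw [e3, e4]
    refine Valuation.map_add_lt _ hθ ?_
    rw [map_mul, vθ, one_mul, map_div₀, hone hν', div_one]
    exact Valuation.map_sub_lt _ (val_nonunit hν) (val_nonunit hν')

/-- the quotient of the distances is a power of `p` up to units -/
theorem Comp.val {c c' : ℍ} {t t' : ℂ} (h : Comp V p c c' t t') (ht : t ≠ 0) (hp : p ≠ 0) :
    V.valuation t' * V.valuation (p : ℂ) ^ h.j = V.valuation t * V.valuation (p : ℂ) ^ h.i := by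
  have hpB : V.valuation (p : ℂ) ≠ 0 := by
    rw [Valuation.ne_zero_iff]
    exact_mod_cast hp
  have h1 := val_of_near (z := t' * h.D' / (t * h.D)) (r := h.σ) (by rw [h.hσ]; exact h.near)
  rw [h.hσ, map_div₀, map_mul, map_mul, h.hD, h.hD'] at h1
  exact (div_eq_one_iff_eq (mul_ne_zero (V.valuation.ne_zero_iff.2 ht) (pow_ne_zero _ hpB))).1 h1

/-- The injectivity of `j`. -/
def JInj : Prop := ∀ w w' : ℍ, jj w = jj w' → jj w' ≠ 0 → jj w' ≠ 1728 → ∃ γ : M2, γ.det = 1 ∧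
  Rel γ w' w

/-- the quotient of the distances is near to a rational number if the CM points are equal -/
theorem Comp.rl (hj : JInj) (hl : p.Prime) (hpV : V.valuation (p : ℂ) < 1) {c : ℍ} {t t' : ℂ}
    (h : Comp V p c c t t') (ht : t ≠ 0) (ht' : t' ≠ 0) (hdd : dd jj c ≠ 0) (hord : OrdAt p c) :
    RL V (t' / t) := by
  have hpB : V.valuation (p : ℂ) ≠ 0 := by
    rw [Valuation.ne_zero_iff]
    exact_mod_cast hl.ne_zero
  obtain ⟨γ, hγ, hrelγ⟩ := hj h.w h.u' h.j_eq h.n0 h.n1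
  have hD0 : h.D ≠ 0 := by
    rw [← V.valuation.ne_zero_iff, h.hD]
    exact pow_ne_zero _ hpB
  have hD0' : h.D' ≠ 0 := by
    rw [← V.valuation.ne_zero_iff, h.hD']
    exact pow_ne_zero _ hpB
  have hσ0 : h.σ ≠ 0 := by
    rw [← V.valuation.ne_zero_iff, h.hσ]
    exact one_ne_zero
  have hu : dd jj h.u ≠ 0 := by
    intro h0
    have := h.der_G
    rw [h0, mul_zero] at this
    exact mul_ne_zero hD0 hdd this
  have hw : dd jj h.w ≠ 0 := by
    intro h0
    have := h.der_A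
    rw [h0, mul_zero] at this
    exact mul_ne_zero hσ0 hu this
  have e1 := dd_sl hγ hrelγ
  have hγpos : 0 < γ.det := by rw [hγ]; norm_num
  have hAG : 0 < (h.A * h.G).det := by
    rw [Matrix.det_mul]
    exact mul_pos h.det_A h.det_G
  have hγG : 0 < (γ * h.G').det := by
    rw [Matrix.det_mul]
    exact mul_pos hγpos h.det_G'
  have e2 : h.σ * h.D * dd jj c = der (h.A * h.G) c * dd jj h.w := by
    rw [der_mul h.rel_G]
    linear_combination h.σ * h.der_G + der h.G c * h.der_A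
  have e3 : h.D' * dd jj c = der (γ * h.G') c * dd jj h.w := by
    rw [der_mul h.rel_G']
    linear_combination h.der_G' + der h.G' c * e1
  have e4 : h.σ * h.D / h.D' = der (h.A * h.G) c / der (γ * h.G') c := by
    have hne := der_ne hγG c
    rw [div_eq_div_iff hD0' hne]
    apply mul_right_cancel₀ (mul_ne_zero hdd hw)
    linear_combination der (γ * h.G') c * dd jj h.w * e2 - der (h.A * h.G) c * dd jj h.w * e3
  -- the elements of `ℚ(τ)`
  have hden : ∀ B : M2, 0 < B.det → RL V (den B c) := by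
    intro B hB
    have h1 : den B c = ((B 1 1 : ℚ) : ℂ) + ((B 1 0 : ℚ) : ℂ) * c := by
      unfold Pool.Agent.N135.ZO.den
      push_cast
      ring
    have h2 := den_ne hB c
    rw [h1] at h2 ⊢
    exact rl_of_ord hl hpV hord h2
  have hder : ∀ B : M2, 0 < B.det → RL V (der B c) := by
    intro B hB
    unfold der
    rw [sq]
    refine RL.div ?_ ((hden B hB).mul (hden B hB))
    have : ((B.det : ℤ) : ℂ) = ((B.det : ℚ) : ℂ) := by push_cast; rfl
    rw [this]
    exact rl_rat (by exact_mod_cast hB.ne')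
  have hRL : RL V (h.σ * h.D / h.D') := by
    rw [e4]
    exact (hder _ hAG).div (hder _ hγG)
  refine hRL.congr ?_
  have e5 : t' / t - h.σ * h.D / h.D' = h.D / h.D' * (t' * h.D' / (t * h.D) - h.σ) := by
    field_simp
  have e6 : h.σ * h.D / h.D' = h.D / h.D' * h.σ := by ring
  rw [e5, e6, map_mul, map_mul, h.hσ]
  exact mul_lt_mul_of_pos_left h.near (zero_lt_iff.2 (V.valuation.ne_zero_iff.2
    (div_ne_zero hD0 hD0')))

end Pool.Agent.U854.CL
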