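import Pool.Agent.U854.CL.Wp
import Pool.Agent.U854.CL.Pair

/-!
The injectivity of `j` modulo `SL(2, ℤ)`.
-/

set_option autoImplicit false

namespace Pool.Agent.U854.CL

open UpperHalfPlane H294ZP Function Pool.Agent.N135.ZO PeriodPair ModularForm EisensteinSeries

/-- the lattice `μ (ℤ τ + ℤ)` -/
noncomputable def Lt (τ : ℍ) (μ : ℂ) (hμ : μ ≠ 0) : PeriodPair where
  ω₁ := μ * τ
  ω₂ := μ
  indep := by
    rw [LinearIndependent.pair_iff]
    intro s t hst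
    have h1 : (s : ℂ) * τ + t = 0 := by
      have h2 : μ * ((s : ℂ) * τ + t) = 0 := by
        simp only [Complex.real_smul] at hst
        linear_combination hst
      exact (mul_eq_zero.1 h2).resolve_left hμ
    have him := congrArg Complex.im h1
    have hy : τ.im ≠ 0 := τ.im_pos.ne'
    simp at him
    have hs : s = 0 := by
      rcases him with h | h
      · exact h
      · exact absurd h hy
    rw [hs] at h1
    refine ⟨hs, ?_⟩
    simpa using h1

theorem G_Lt (τ : ℍ) (μ : ℂ) (hμ : μ ≠ 0) {k : ℕ} (hk : 3 ≤ k) :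
    (Lt τ μ hμ).G k = (μ ^ k)⁻¹ * (riemannZeta k * (2 * E hk τ)) := by
  have h1 : (Lt τ μ hμ).G k = ∑' v : Fin 2 → ℤ, (μ ^ k)⁻¹ * eisSummand k v τ := by
    unfold PeriodPair.G
    rw [← (Lt τ μ hμ).latticeEquivProd.symm.toEquiv.tsum_eq, ← (finTwoArrowEquiv ℤ).tsum_eq]
    refine tsum_congr fun v => ?_
    have h2 := (Lt τ μ hμ).latticeEquiv_symm_apply ((finTwoArrowEquiv ℤ) v)
    have h3 : (((Lt τ μ hμ).latticeEquivProd.symm.toEquiv ((finTwoArrowEquiv ℤ) v)).1 : ℂ) =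
        (v 0 : ℂ) * (μ * τ) + (v 1 : ℂ) * μ := h2
    rw [h3]
    have h4 : (v 0 : ℂ) * (μ * τ) + (v 1 : ℂ) * μ = μ * ((v 0 : ℂ) * τ + v 1) := by ring
    rw [h4, mul_pow, mul_inv]
    congr 1
    unfold eisSummand
    rw [zpow_neg, zpow_natCast]
  rw [h1, tsum_mul_left, tsum_eisSummand_eq_riemannZeta_mul_eisensteinSeries hk]
  have h5 : E hk τ = (1 / 2 : ℂ) * eisensteinSeries (N := 1) 0 k τ := rfl
  rw [h5]
  ring

theorem exists_sq (z : ℂ) : ∃ w : ℂ, w ^ 2 = z := by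
  obtain ⟨w, hw⟩ := IsAlgClosed.exists_pow_nat_eq z (n := 2) (by norm_num)
  exact ⟨w, hw⟩

theorem int_rel {w : ℍ} {x y : ℤ} (h : (x : ℂ) * w + y = 0) : x = 0 ∧ y = 0 := by
  have him := congrArg Complex.im h
  have hy : w.im ≠ 0 := w.im_pos.ne'
  simp at him
  have hx : x = 0 := by
    rcases him with h | h
    · exact h
    · exact absurd h hy
  rw [hx] at h
  refine ⟨hx, ?_⟩
  have : (y : ℂ) = 0 := by simpa using h
  exact_mod_cast this

/-- The injectivity of `j` modulo `SL(2, ℤ)`. -/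
theorem jinj : JInj := by
  intro w w' hj h0 h1
  -- the Eisenstein series
  have hΔ := discriminant_ne_zero w
  have hΔ' := discriminant_ne_zero w'
  have c4 := E4_cube w
  have c4' := E4_cube w'
  have c6 := E6_sq w
  have c6' := E6_sq w'
  rw [hj] at c4 c6
  have h1s : jj w' - 1728 ≠ 0 := sub_ne_zero.2 h1
  have n4 : E₄ w ≠ 0 := by
    intro h
    rw [h, zero_pow (by norm_num)] at c4
    exact mul_ne_zero h0 hΔ c4.symm
  have n4' : E₄ w' ≠ 0 := by
    intro h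
    rw [h, zero_pow (by norm_num)] at c4'
    exact mul_ne_zero h0 hΔ' c4'.symm
  have n6 : E₆ w ≠ 0 := by
    intro h
    rw [h, zero_pow (by norm_num)] at c6
    exact mul_ne_zero h1s hΔ c6.symm
  have n6' : E₆ w' ≠ 0 := by
    intro h
    rw [h, zero_pow (by norm_num)] at c6'
    exact mul_ne_zero h1s hΔ' c6'.symm
  have cross : E₄ w ^ 3 * E₆ w' ^ 2 = E₄ w' ^ 3 * E₆ w ^ 2 := by
    rw [c4, c4', c6, c6']
    ring
  set u : ℂ := E₆ w * E₄ w' / (E₄ w * E₆ w') with hu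
  have hu4 : E₄ w = u ^ 2 * E₄ w' := by
    rw [hu]
    field_simp
    linear_combination cross
  have hu6 : E₆ w = u ^ 3 * E₆ w' := by
    rw [hu]
    field_simp
    linear_combination cross
  have hu0 : u ≠ 0 := by
    rw [hu]
    exact div_ne_zero (mul_ne_zero n6 n4') (mul_ne_zero n4 n6')
  obtain ⟨μ, hμ⟩ := exists_sq u
  have hμ0 : μ ≠ 0 := by
    rintro rfl
    rw [zero_pow (by norm_num)] at hμ
    exact hu0 hμ.symm
  have g4 : (Lt w 1 one_ne_zero).g₂ = (Lt w' μ⁻¹ (inv_ne_zero hμ0)).g₂ := by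
    unfold PeriodPair.g₂
    rw [G_Lt w 1 one_ne_zero (by norm_num : 3 ≤ 4), G_Lt w' μ⁻¹ (inv_ne_zero hμ0)
      (by norm_num : 3 ≤ 4)]
    have e1 : E (by norm_num : 3 ≤ 4) w = u ^ 2 * E (by norm_num : 3 ≤ 4) w' := hu4
    rw [e1, ← hμ]
    simp only [one_pow, inv_one, one_mul, inv_pow, inv_inv]
    ring
  have g6 : (Lt w 1 one_ne_zero).g₃ = (Lt w' μ⁻¹ (inv_ne_zero hμ0)).g₃ := by
    unfold PeriodPair.g₃
    rw [G_Lt w 1 one_ne_zero (by norm_num : 3 ≤ 6), G_Lt w' μ⁻¹ (inv_ne_zero hμ0)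
      (by norm_num : 3 ≤ 6)]
    have e1 : E (by norm_num : 3 ≤ 6) w = u ^ 3 * E (by norm_num : 3 ≤ 6) w' := hu6
    rw [e1, ← hμ]
    simp only [one_pow, inv_one, one_mul, inv_pow, inv_inv]
    ring
  have hlat := lattice_unique g4 g6
  have m1 : (w : ℂ) ∈ (Lt w' μ⁻¹ (inv_ne_zero hμ0)).lattice := by
    rw [← hlat]
    have := (Lt w 1 one_ne_zero).ω₁_mem_lattice
    simpa [Lt] using this
  have m2 : (1 : ℂ) ∈ (Lt w' μ⁻¹ (inv_ne_zero hμ0)).lattice := by
    rw [← hlat]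
    exact (Lt w 1 one_ne_zero).ω₂_mem_lattice
  have m3 : μ⁻¹ * (w' : ℂ) ∈ (Lt w 1 one_ne_zero).lattice := by
    rw [hlat]
    exact (Lt w' μ⁻¹ (inv_ne_zero hμ0)).ω₁_mem_lattice
  have m4 : μ⁻¹ ∈ (Lt w 1 one_ne_zero).lattice := by
    rw [hlat]
    exact (Lt w' μ⁻¹ (inv_ne_zero hμ0)).ω₂_mem_lattice
  rw [mem_lattice] at m1 m2 m3 m4
  obtain ⟨a, b, hab⟩ := m1
  obtain ⟨c, d, hcd⟩ := m2
  obtain ⟨a', b', hab'⟩ := m3
  obtain ⟨c', d', hcd'⟩ := m4
  change (a : ℂ) * (μ⁻¹ * w') + b * μ⁻¹ = w at hab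
  change (c : ℂ) * (μ⁻¹ * w') + d * μ⁻¹ = 1 at hcd
  change (a' : ℂ) * (1 * w) + b' * 1 = μ⁻¹ * w' at hab'
  change (c' : ℂ) * (1 * w) + d' * 1 = μ⁻¹ at hcd'
  have hcd2 : (c : ℂ) * w' + d = μ := by
    have : μ * ((c : ℂ) * (μ⁻¹ * w') + d * μ⁻¹) = μ := by rw [hcd, mul_one]
    rw [← this]
    field_simp
  have hab2 : (a : ℂ) * w' + b = w * μ := by
    have : μ * ((a : ℂ) * (μ⁻¹ * w') + b * μ⁻¹) = μ * w := by rw [hab]
    rw [mul_comm (w : ℂ) μ, ← this]
    field_simp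
  have hrel : (w : ℂ) * (c * w' + d) = a * w' + b := by
    rw [hcd2, hab2]
  -- the inverse matrix
  have r1 : ((a * a' + b * c' - 1 : ℤ) : ℂ) * w + ((a * b' + b * d' : ℤ) : ℂ) = 0 := by
    push_cast
    linear_combination hab + (a : ℂ) * hab' + (b : ℂ) * hcd'
  have r2 : ((c * a' + d * c' : ℤ) : ℂ) * w + ((c * b' + d * d' - 1 : ℤ) : ℂ) = 0 := by
    push_cast
    linear_combination hcd + (c : ℂ) * hab' + (d : ℂ) * hcd'
  obtain ⟨s1, s2⟩ := int_rel r1
  obtain ⟨s3, s4⟩ := int_rel r2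
  have hdet : (a * d - b * c) * (a' * d' - b' * c') = 1 := by
    have t1 : a * a' + b * c' = 1 := by linarith
    have t4 : c * b' + d * d' = 1 := by linarith
    calc (a * d - b * c) * (a' * d' - b' * c') =
        (a * a' + b * c') * (c * b' + d * d') - (a * b' + b * d') * (c * a' + d * c') := by ring
      _ = 1 := by rw [t1, t4, s2]; ring
  -- positivity
  have him := congrArg Complex.im hrel
  have hre := congrArg Complex.re hrel
  simp only [Complex.mul_im, Complex.mul_re, Complex.add_im, Complex.add_re, Complex.intCast_re,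
    Complex.intCast_im, zero_mul, add_zero, sub_zero, coe_im, coe_re] at him hre
  have hpos : (w.im : ℝ) * (((c : ℝ) * w'.re + d) ^ 2 + (c : ℝ) ^ 2 * w'.im ^ 2) =
      w'.im * ((a : ℝ) * d - b * c) := by
    linear_combination ((c : ℝ) * w'.re + d) * him - (c : ℝ) * w'.im * hre
  refine ⟨!![a, b; c, d], ?_, ?_⟩
  · rw [Matrix.det_fin_two_of]
    rcases Int.isUnit_iff.1 (IsUnit.of_mul_eq_one _ hdet) with h | h
    · exact h
    · exfalso
      have h2 : (a : ℝ) * d - b * c = -1 := by exact_mod_cast h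
      rw [h2] at hpos
      have h3 : 0 < w.im := w.im_pos
      have h4 : 0 < w'.im := w'.im_pos
      have h5 : 0 ≤ (w.im : ℝ) * (((c : ℝ) * w'.re + d) ^ 2 + (c : ℝ) ^ 2 * w'.im ^ 2) := by
        positivity
      linarith
  · simp only [Pool.Agent.N135.ZO.Rel, Pool.Agent.N135.ZO.den, Pool.Agent.N135.ZO.num,
      Matrix.of_apply, Matrix.cons_val', Matrix.cons_val_zero, Matrix.cons_val_one,
      Matrix.cons_val_fin_one]
    exact hrel

end Pool.Agent.U854.CL
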