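import Pool.Agent.N135.ZO.Loc

/-!
The first order law for the canonical value.
-/

set_option autoImplicit false

namespace Pool.Agent.U854.CL

open UpperHalfPlane H294ZP Function Polynomial Pool.Agent.N135.ZO
open Pool.Agent.Y226 (ZZ ιZ ιZ_apply)

/-- the first order term -/
theorem law_alg {B : Type} [CommRing B] {p : ℕ} (hp : p.Prime) (hp2 : p ≠ 2)
    {x y hx hy gx gy h' g' η γ qx qy c c' r t w u'
    L M Vx Vy Qx φx φy D s : B} (hty : y = x + t) (ht : t ^ (p - 1) = p * w)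
    (hqx : qx = x ^ p * hx + p * gx) (hqy : qy = y ^ p * hy + p * gy)
    (hh : hy = hx + t * h' + t ^ 2 * η) (hg : gy = gx + t * g' + t ^ 2 * γ)
    (hc : c = p ^ 2 * c') (hN : Vx * Vy * (φy - φx) = qy * hx - qx * hy + c * t * r)
    (hVx : Vx = hx + c * u' * M) (hQx : Qx = qx + c * u' * L) (hφ : φx * Vx = Qx)
    (hD : D * Vx = (p * x ^ (p - 1) * hx + x ^ p * h' + p * g') - φx * h' + c * s) :
    ∃ d₁ d₂ d₃, Vx * Vy * (φy - φx) = t * (D * Vx ^ 2) + t * p * (t * d₁ + w * d₂ + p * d₃) := by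
  obtain ⟨r1, hr1⟩ := pow_prime_add hp hp2 x t
  have htp : t ^ p = t * (p * w) := by
    rw [← ht, ← pow_succ']
    congr 1
    have := hp.two_le
    omega
  have hyp : y ^ p = x ^ p + t * p * (x ^ (p - 1) + t * r1 + w) := by
    rw [hty, hr1, htp]
    ring
  set k1 := h' * hx + t * η * hx with hk1
  set A := r1 * (hx ^ 2 + t * k1) + x ^ (p - 1) * k1 + (γ * hx - gx * η) with hA
  set M0 := x ^ (p - 1) * hx ^ 2 + (g' * hx - gx * h') with hM0
  have hmain : qy * hx - qx * hy = t * p * (M0 + t * A + w * (hx ^ 2 + t * k1)) := by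
    rw [hqx, hqy, hyp, hg, hh, hM0, hA, hk1]
    ring
  have hDV : D * Vx ^ 2 = p * M0 + c * ((p * x ^ (p - 1) * hx + x ^ p * h' + p * g') * (u' * M) -
      u' * L * h' + s * Vx) := by
    have e1 : D * Vx ^ 2 = (D * Vx) * Vx := by ring
    rw [e1, hD]
    have e2 : ((p * x ^ (p - 1) * hx + x ^ p * h' + p * g') - φx * h' + c * s) * Vx =
        (p * x ^ (p - 1) * hx + x ^ p * h' + p * g') * Vx - (φx * Vx) * h' + c * s * Vx := by ring
    rw [e2, hφ, hQx, hqx, hM0]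
    nth_rw 1 [hVx]
    ring
  refine ⟨A, hx ^ 2 + t * k1, c' * r - c' *
    ((p * x ^ (p - 1) * hx + x ^ p * h' + p * g') * (u' * M) - u' * L * h' + s * Vx), ?_⟩
  rw [hN, hmain, hDV, hc]
  ring

variable {V : ValuationSubring ℂ} {p : ℕ}

theorem nonunit_add {a b : V} (ha : ¬ IsUnit a) (hb : ¬ IsUnit b) : ¬ IsUnit (a + b) :=
  (IsLocalRing.mem_maximalIdeal _).1 ((IsLocalRing.maximalIdeal V).add_mem
      ((IsLocalRing.mem_maximalIdeal _).2 ha) ((IsLocalRing.mem_maximalIdeal _).2 hb))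

theorem nonunit_mul {a b : V} (hb : ¬ IsUnit b) : ¬ IsUnit (a * b) := fun h =>
  hb (isUnit_of_mul_isUnit_right h)

theorem Cl.nonunit (hpV : V.valuation (p : ℂ) < 1) {t : V} (ht : Cl p t) : ¬ IsUnit t := by
  obtain ⟨w, -, hw⟩ := ht
  intro hu
  have h10 : IsUnit (t ^ (p - 1)) := hu.pow _
  rw [hw] at h10
  exact not_unit_mul (not_unit_p hpV) h10

/-- the first order law -/
theorem first_order (hl : p.Prime) (hp2 : p ≠ 2) (hpV : V.valuation (p : ℂ) < 1) (P : Pkg p hl.pos)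
    {τ : ℍ} {k : Option (Fin p)}
    (hk : V.valuation (uu hl.pos k τ) = V.valuation (p : ℂ) ^ 12)
    {x φ : V} (hx : (x : ℂ) = jj τ) (hφ : (φ : ℂ) = jj (hh hl.pos k τ))
    (hxu : IsUnit (P.h.eval₂ (ρV V) x)) (h0 : IsUnit x) (h1 : IsUnit (x - 1728)) :
    ∃ D : V, V.valuation (D : ℂ) = V.valuation (p : ℂ) ∧
      (D : ℂ) * dd jj τ = dd (fun w => jj (hh hl.pos k w)) τ ∧
      ∀ y φy : V, IsUnit (P.h.eval₂ (ρV V) y) → IsPhi P y φy → Cl p (y - x) →
        ∃ ν : V, ¬ IsUnit ν ∧ φy - φ = (y - x) * (D + p * ν) := by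
  have hpB : (p : ℂ) ≠ 0 := by exact_mod_cast hl.ne_zero
  obtain ⟨u, u', huu, e1, e2', e3⟩ := IsPhi.intro hl P hk hx hφ
  obtain ⟨D, s, hD1, hD2⟩ := exists_D hl hpV P hx hφ huu e2' hxu
  have hpu := not_unit_p hpV
  have hV : IsUnit (P.h.eval₂ (ρV V) x + u * e2 (ρV V) P.M x u) := by
    refine unit_add hxu ?_
    rw [e2', pow_succ', mul_assoc, mul_assoc]
    exact not_unit_mul hpu
  obtain ⟨v, hv⟩ := hV.exists_right_inv
  -- the valuation of the derivative
  have hτ : jj τ ∈ V := hx ▸ x.2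
  obtain ⟨g0, g1⟩ := phi_res hl P hpV ⟨u, u', e1, e2', e3⟩ hxu h0 h1
  have h6 := der6 hl.pos k τ
  rw [← hD1] at h6
  have vx0 : V.valuation (jj τ) = 1 := by rw [← hx]; exact (V.valuation_eq_one_iff x).1 h0
  have vx1 : V.valuation (jj τ - 1728) = 1 := by
    have := (V.valuation_eq_one_iff (x - 1728)).1 h1
    push_cast at this
    rw [hx] at this
    exact this
  have vf0 : V.valuation (jj (hh hl.pos k τ)) = 1 := by
    rw [← hφ]; exact (V.valuation_eq_one_iff φ).1 g0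
  have vf1 : V.valuation (jj (hh hl.pos k τ) - 1728) = 1 := by
    have := (V.valuation_eq_one_iff (φ - 1728)).1 g1
    push_cast at this
    rw [hφ] at this
    exact this
  have hnz0 : jj τ ≠ 0 := by
    intro h
    rw [h, map_zero] at vx0
    exact zero_ne_one vx0
  have hnz1 : jj τ ≠ 1728 := by
    intro h
    rw [h, sub_self, map_zero] at vx1
    exact zero_ne_one vx1
  have hdd := dd_jj_ne hnz0 hnz1
  have h7 : (p : ℂ) ^ 6 * (D : ℂ) ^ 6 * (jj τ ^ 4 * (jj τ - 1728) ^ 3) =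
      uu hl.pos k τ * (jj (hh hl.pos k τ) ^ 4 * (jj (hh hl.pos k τ) - 1728) ^ 3) := by
    have h8 : dd jj τ ^ 6 ≠ 0 := pow_ne_zero _ hdd
    apply mul_right_cancel₀ h8
    rw [← h6]
    ring
  have h8 := congrArg V.valuation h7
  simp only [map_mul, map_pow, vx0, vx1, vf0, vf1, hk, one_pow, mul_one] at h8
  have hpne : V.valuation (p : ℂ) ≠ 0 := by
    rw [Valuation.ne_zero_iff]
    exact hpB
  have h9 : V.valuation (D : ℂ) ^ 6 = V.valuation (p : ℂ) ^ 6 := by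
    have : V.valuation (p : ℂ) ^ 6 * V.valuation (D : ℂ) ^ 6 =
        V.valuation (p : ℂ) ^ 6 * V.valuation (p : ℂ) ^ 6 := by rw [h8, ← pow_add]
    exact mul_left_cancel₀ (pow_ne_zero _ hpne) this
  have hvD : V.valuation (D : ℂ) = V.valuation (p : ℂ) :=
    (pow_left_inj₀ zero_le zero_le (by norm_num)).1 h9
  -- `D = p D'`
  have hD'm : (D : ℂ) / p ∈ V := by
    rw [← V.valuation_le_one_iff, map_div₀, hvD]
    exact div_self_le_one _
  obtain ⟨D', hD'⟩ : ∃ D' : V, D = p * D' := by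
    refine ⟨⟨_, hD'm⟩, ?_⟩
    apply Subtype.ext
    push_cast
    rw [mul_div_cancel₀ _ hpB]
  refine ⟨D, hvD, hD1, ?_⟩
  intro y φy hyu hy ht
  have htu := Cl.nonunit hpV ht
  obtain ⟨tw, htw, ht⟩ := ht
  obtain ⟨w, w', f1, f2, f3⟩ := hy
  obtain ⟨r, hr⟩ := phi_core P hpV hxu hyu e1 e2' e3 f1 f2 f3
  obtain ⟨η, hη⟩ := e1_taylor (ρV V) P.h x y
  obtain ⟨γ, hγ⟩ := e1_taylor (ρV V) P.g x y
  have hVy : IsUnit (P.h.eval₂ (ρV V) y + w * e2 (ρV V) P.M y w) := by
    refine unit_add hyu ?_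
    rw [f2, pow_succ', mul_assoc, mul_assoc]
    exact not_unit_mul hpu
  obtain ⟨v', hv'⟩ := hVy.exists_right_inv
  obtain ⟨d₁, d₂, d₃, hd⟩ := law_alg (B := V) hl hp2 (x := x) (y := y) (t := y - x) (w := tw)
    (hx := P.h.eval₂ (ρV V) x) (hy := P.h.eval₂ (ρV V) y)
    (gx := P.g.eval₂ (ρV V) x) (gy := P.g.eval₂ (ρV V) y)
    (h' := (derivative P.h).eval₂ (ρV V) x) (g' := (derivative P.g).eval₂ (ρV V) x)
    (η := η) (γ := γ) (c := (p : V) ^ 12) (c' := (p : V) ^ 10) (r := r) (u' := u')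
    (L := e2 (ρV V) P.L x u) (M := e2 (ρV V) P.M x u) (φx := φ) (φy := φy) (D := D) (s := s)
    (Vx := P.h.eval₂ (ρV V) x + u * e2 (ρV V) P.M x u)
    (Vy := P.h.eval₂ (ρV V) y + w * e2 (ρV V) P.M y w)
    (Qx := x ^ p * P.h.eval₂ (ρV V) x + p * P.g.eval₂ (ρV V) x + u * e2 (ρV V) P.L x u)
    (by ring) ht rfl rfl (by linear_combination hη) (by linear_combination hγ)
    (by ring) hr (by rw [← e2']) (by rw [← e2']) e3 hD2
  obtain ⟨α, hα⟩ := e1_sub (ρV V) P.h x y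
  generalize P.h.eval₂ (ρV V) x = hx0 at *
  generalize P.h.eval₂ (ρV V) y = hy0 at *
  generalize e2 (ρV V) P.M x u = Mx at *
  generalize e2 (ρV V) P.M y w = My at *
  set Vx := hx0 + u * Mx with hVxd
  set Vy := hy0 + w * My with hVyd
  have hdiff : Vx - Vy = (y - x) * (-α) + p * (p ^ 11 * (u' * Mx - w' * My)) := by
    rw [hVxd, hVyd]
    linear_combination -hα + Mx * e2' - My * f2
  have hnd : ¬ IsUnit (Vx - Vy) := by
    rw [hdiff]
    exact nonunit_add (not_unit_mul htu) (not_unit_mul hpu)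
  refine ⟨D' * (Vx - Vy) * v' + v * v' * ((y - x) * d₁ + tw * d₂ + p * d₃), ?_, ?_⟩
  · refine nonunit_add ?_ ?_
    · rw [mul_comm D', mul_assoc]
      exact not_unit_mul hnd
    · refine nonunit_mul ?_
      exact nonunit_add (nonunit_add (not_unit_mul htu) (not_unit_mul htw)) (not_unit_mul hpu)
  · have e : φy - φ = v * v' * (Vx * Vy * (φy - φ)) := by
      linear_combination -(φy - φ) * Vy * v' * hv - (φy - φ) * hv'
    rw [e, hd]
    have e5 : v * v' * ((y - x) * (D * Vx ^ 2)) = (y - x) * D * (1 + (Vx - Vy) * v') := by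
      have : (1 : V) + (Vx - Vy) * v' = Vx * v' := by linear_combination -hv'
      rw [this]
      linear_combination (y - x) * D * Vx * v' * hv
    have e6 : v * v' * ((y - x) * (D * Vx ^ 2) + (y - x) * p *
        ((y - x) * d₁ + tw * d₂ + p * d₃)) = v * v' * ((y - x) * (D * Vx ^ 2)) +
        (y - x) * (p * (v * v' * ((y - x) * d₁ + tw * d₂ + p * d₃))) := by ring
    rw [e6, e5]
    linear_combination (y - x) * (Vx - Vy) * v' * hD'

end Pool.Agent.U854.CL
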