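import Pool.Agent.U854.CL.Der

/-!
The leading form of the modular equation at a pair of CM points.
-/

set_option autoImplicit false

namespace Pool.Agent.U854.CL

open UpperHalfPlane H294ZP Function Polynomial Pool.Agent.N135.ZO Filter Topology
open Pool.Agent.Y226 (ZZ ιZ ιZ_apply PsiE map_PsiE modular_family)

theorem lead_poly {α : Type} {l : Filter α} [l.NeBot] {X : α → ℂ} (hX : Tendsto X l (𝓝 0))
    (hX0 : ∀ᶠ a in l, X a ≠ 0) (e : ℕ) : ∀ {F : ℂ[X]} {L : ℂ},
    Tendsto (fun a => F.eval (X a) / X a ^ e) l (𝓝 L) →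
    ∃ G : ℂ[X], F = Polynomial.X ^ e * G ∧ G.eval 0 = L := by
  have hc : ∀ F : ℂ[X], Tendsto (fun a => F.eval (X a)) l (𝓝 (F.eval 0)) := fun F =>
    (F.continuous.tendsto 0).comp hX
  induction e with
  | zero =>
    intro F L h
    refine ⟨F, by simp, ?_⟩
    simp only [pow_zero, div_one] at h
    exact tendsto_nhds_unique (hc F) h
  | succ e ih =>
    intro F L h
    have h1 : Tendsto (fun a => F.eval (X a)) l (𝓝 (L * 0)) := by
      have h2 : Tendsto (fun a => F.eval (X a) / X a ^ (e + 1) * X a ^ (e + 1)) l (𝓝 (L * 0)) := by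
        refine h.mul ?_
        have := hX.pow (e + 1)
        rwa [zero_pow (Nat.succ_ne_zero e)] at this
      refine h2.congr' ?_
      filter_upwards [hX0] with a ha
      rw [div_mul_cancel₀ _ (pow_ne_zero _ ha)]
    have h0 : F.eval 0 = 0 := by
      have := tendsto_nhds_unique (hc F) h1
      rwa [mul_zero] at this
    obtain ⟨F1, hF1⟩ := Polynomial.dvd_iff_isRoot.2 (show F.IsRoot 0 from h0)
    rw [C_0, sub_zero] at hF1
    have h2 : Tendsto (fun a => F1.eval (X a) / X a ^ e) l (𝓝 L) := by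
      refine h.congr' ?_
      filter_upwards [hX0] with a ha
      rw [hF1, eval_mul, eval_X, pow_succ']
      rw [mul_div_mul_left _ _ ha]
    obtain ⟨G, hG, hG0⟩ := ih h2
    exact ⟨G, by rw [hF1, hG, pow_succ', mul_assoc], hG0⟩

theorem prod_limit {ι : Type} [Fintype ι] {τ : ℂ} {J : ℂ → ℂ} {Jk : ι → ℂ → ℂ} {J' : ℂ}
    {Jk' : ι → ℂ} (hJ : HasDerivAt J J' τ) (hJk : ∀ k, HasDerivAt (Jk k) (Jk' k) τ) (hJ' : J' ≠ 0)
    (b' θ : ℂ) [DecidablePred fun k => Jk k τ = b'] :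
    Tendsto (fun z => (∏ k, (b' + θ * (J z - J τ) - Jk k z)) /
      (J z - J τ) ^ (Finset.univ.filter fun k => Jk k τ = b').card) (𝓝[≠] τ)
      (𝓝 (∏ k, if Jk k τ = b' then θ - Jk' k / J' else b' - Jk k τ)) := by
  have hne : ∀ᶠ z in 𝓝[≠] τ, J z - J τ ≠ 0 := by
    filter_upwards [hJ.eventually_ne hJ' (c := J τ)] with z hz
    exact sub_ne_zero.2 hz
  have hJ0 : Tendsto (fun z => J z - J τ) (𝓝[≠] τ) (𝓝 0) := by
    have h1 : Tendsto (fun z => J z - J τ) (𝓝 τ) (𝓝 (J τ - J τ)) :=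
      (hJ.continuousAt.tendsto).sub_const _
    rw [sub_self] at h1
    exact h1.mono_left nhdsWithin_le_nhds
  have e : ∀ z, (∏ k, (b' + θ * (J z - J τ) - Jk k z)) /
      (J z - J τ) ^ (Finset.univ.filter fun k => Jk k τ = b').card =
      ∏ k, (b' + θ * (J z - J τ) - Jk k z) / (if Jk k τ = b' then J z - J τ else 1) := by
    intro z
    rw [Finset.prod_div_distrib]
    congr 1
    rw [Finset.prod_ite, Finset.prod_const, Finset.prod_const_one, mul_one]
  simp only [e]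
  refine tendsto_finsetProd _ fun k _ => ?_
  by_cases hk : Jk k τ = b'
  · simp only [if_pos hk]
    have h1 := (hasDerivAt_iff_tendsto_slope.1 (hJk k)).div (hasDerivAt_iff_tendsto_slope.1 hJ) hJ'
    have h2 : Tendsto (fun z => θ - slope (Jk k) τ z / slope J τ z) (𝓝[≠] τ)
        (𝓝 (θ - Jk' k / J')) := h1.const_sub θ
    refine h2.congr' ?_
    filter_upwards [hne, self_mem_nhdsWithin] with z hz hzτ
    have hz2 : z - τ ≠ 0 := sub_ne_zero.2 hzτ
    rw [slope_def_field, slope_def_field, div_div_div_cancel_right₀ hz2, eq_div_iff hz, sub_mul,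
      div_mul_cancel₀ _ hz, ← hk]
    ring
  · simp only [if_neg hk, div_one]
    have h1 : Tendsto (fun z => b' + θ * (J z - J τ) - Jk k z) (𝓝[≠] τ)
        (𝓝 (b' + θ * 0 - Jk k τ)) := by
      refine ((hJ0.const_mul θ).const_add b').sub ?_
      exact ((hJk k).continuousAt.tendsto).mono_left nhdsWithin_le_nhds
    rwa [mul_zero, add_zero] at h1

/-- the modular equation of level `N` -/
structure Fam (N : ℕ) where
  ι : Type
  inst : Fintype ι
  α : ι → ℕ
  δ : ι → ℕ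
  β : ι → ℤ
  h : ι → ℍ → ℍ
  Q : ℕ → ZZ[X]
  pos : ∀ k, 0 < α k ∧ 0 < δ k ∧ α k * δ k = N
  rel : ∀ k τ, (h k τ : ℂ) * δ k = α k * τ + β k
  prod : ∀ τ y, ∏ k, (y - jj (h k τ)) = PsiE ιZ Q (Fintype.card ι) (jj τ) y
  zero : ∀ (τ w : ℍ) (a b c d : ℤ), a * d - b * c = N → (w : ℂ) * (c * τ + d) = a * τ + b →
      PsiE ιZ Q (Fintype.card ι) (jj τ) (jj w) = 0

attribute [instance] Fam.inst

theorem exists_fam {N : ℕ} (hN : 0 < N) : Nonempty (Fam N) := by
  obtain ⟨ι, inst, α, δ, β, g, Q, h1, h2, -, h3, h4⟩ := modular_family N hN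
  exact ⟨⟨ι, inst, α, δ, β, g, Q, h1, h2, h3, h4⟩⟩

/-- the matrices -/
def Fam.mat {N : ℕ} (F : Fam N) (k : F.ι) : M2 := !![(F.α k : ℤ), F.β k; 0, (F.δ k : ℤ)]

theorem Fam.det_mat {N : ℕ} (F : Fam N) (k : F.ι) : (F.mat k).det = N := by
  rw [Fam.mat, Matrix.det_fin_two_of, mul_zero, sub_zero]
  exact_mod_cast (F.pos k).2.2

theorem Fam.rel_mat {N : ℕ} (F : Fam N) (k : F.ι) (τ : ℍ) : Rel (F.mat k) τ (F.h k τ) := by
  have := F.rel k τ
  simp only [Pool.Agent.N135.ZO.Rel, Pool.Agent.N135.ZO.den, Pool.Agent.N135.ZO.num, Fam.mat, Matrix.of_apply, Matrix.cons_val', Matrix.cons_val_zero,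
    Matrix.cons_val_one, Matrix.cons_val_fin_one]
  push_cast
  rw [← this]
  ring

variable {V : ValuationSubring ℂ} {p : ℕ}

/-- the restriction of the modular equation to a line -/
noncomputable def line (Q : ℕ → ZZ[X]) (D : ℕ) (b b' θ : V) : V[X] :=
  PsiE (C.comp (ρV V)) Q D (C b + X) (C b' + C θ * X)

theorem line_eval (Q : ℕ → ZZ[X]) (D : ℕ) (b b' θ z : V) :
    (line Q D b b' θ).eval z = PsiE (ρV V) Q D (b + z) (b' + θ * z) := by
  have h := map_PsiE (C.comp (ρV V)) (evalRingHom z) Q D (C b + X) (C b' + C θ * X)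
  have e : (evalRingHom z).comp (C.comp (ρV V)) = ρV V := by
    ext x
    simp
  rw [e] at h
  simpa [line] using h

theorem line_map (Q : ℕ → ZZ[X]) (D : ℕ) (b b' θ : V) (z : ℂ) :
    ((line Q D b b' θ).map V.subtype).eval z = PsiE ιZ Q D ((b : ℂ) + z) ((b' : ℂ) + θ * z) := by
  have h := map_PsiE (C.comp (ρV V)) (eval₂RingHom V.subtype z) Q D (C b + X) (C b' + C θ * X)
  have e : (eval₂RingHom V.subtype z).comp (C.comp (ρV V)) = ιZ := by
    rw [← Pool.Agent.N135.ZO.sub_comp V]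
    ext x
    simp
  rw [e] at h
  rw [eval_map]
  simpa [line] using h

/-- the leading form of the modular equation -/
theorem lead (hl : p.Prime) (hl2 : p ≠ 2) (hpV : V.valuation (p : ℂ) < 1) (P : Pkg p hl.pos)
    {N : ℕ} (hN : 0 < N) (hNV : V.valuation (N : ℂ) = 1) (F : Fam N) (c c' : TT P V)
    (hc : IsCM c.1) (hc' : IsCM c'.1) (s s' : TT P V) (hrel : RN N s.1 s'.1) (hδ : xv s ≠ xv c)
    (hsm : V.valuation ((xv s - xv c : V) : ℂ) < V.valuation (p : ℂ) ^ Fintype.card F.ι)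
    (θ : V) (hθ : xv s' - xv c' = θ * (xv s - xv c)) :
    ∃ (A : M2) (w : ℍ) (σ : ℂ), A.det = N ∧ Rel A c.1 w ∧ jj w = jj c'.1 ∧
      σ * dd jj c.1 = der A c.1 * dd jj w ∧ V.valuation σ = 1 ∧ V.valuation ((θ : ℂ) - σ) < 1 := by
  classical
  set b := xv c with hb
  set b' := xv c' with hb'
  set δ := xv s - b with hδd
  have hδ0 : δ ≠ 0 := sub_ne_zero.2 hδ
  have hJ' := dd_ne c
  have hdet : ∀ k, 0 < (F.mat k).det := by
    intro k
    rw [F.det_mat]
    exact_mod_cast hN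
  -- derivatives
  have dJ : HasDerivAt (jj ∘ ofComplex) (dd jj c.1) (c.1 : ℂ) := hasDerivAt_dd hTA.2.1 c.1
  have dJk : ∀ k, HasDerivAt ((fun z => jj (F.h k z)) ∘ ofComplex)
      (der (F.mat k) c.1 * dd jj (F.h k c.1)) (c.1 : ℂ) := by
    intro k
    refine hasDeriv_comp (hdet k) (F.rel_mat k c.1) hTA.2.1 fun z z' hz => ?_
    rw [Rel.unique (hdet k) hz (F.rel_mat k z)]
  have hval : (jj ∘ ofComplex) (c.1 : ℂ) = b := by
    rw [hb, xv_coe]
    simp
  have hvalk : ∀ k, ((fun z => jj (F.h k z)) ∘ ofComplex) (c.1 : ℂ) = jj (F.h k c.1) := by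
    intro k
    simp
  have hlim := prod_limit (J := jj ∘ ofComplex)
    (Jk := fun k => ((fun z => jj (F.h k z)) ∘ ofComplex)) dJ dJk hJ' (b' : ℂ) (θ : ℂ)
  simp only [hval, hvalk] at hlim
  set e := (Finset.univ.filter fun k => jj (F.h k c.1) = (b' : ℂ)).card with he
  set Λ := ∏ k, (if jj (F.h k c.1) = (b' : ℂ) then (θ : ℂ) -
    der (F.mat k) c.1 * dd jj (F.h k c.1) / dd jj c.1 else (b' : ℂ) - jj (F.h k c.1)) with hΛ
  set FV := line F.Q (Fintype.card F.ι) b b' θ with hFV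
  have hX : Tendsto (fun z => (jj ∘ ofComplex) z - (b : ℂ)) (𝓝[≠] (c.1 : ℂ)) (𝓝 0) := by
    have h1 : Tendsto (fun z => (jj ∘ ofComplex) z - (b : ℂ)) (𝓝 (c.1 : ℂ))
        (𝓝 ((jj ∘ ofComplex) (c.1 : ℂ) - b)) := (dJ.continuousAt.tendsto).sub_const _
    rw [hval, sub_self] at h1
    exact h1.mono_left nhdsWithin_le_nhds
  have hX0 : ∀ᶠ z in 𝓝[≠] (c.1 : ℂ), (jj ∘ ofComplex) z - (b : ℂ) ≠ 0 := by
    filter_upwards [dJ.eventually_ne hJ' (c := (b : ℂ))] with z hz
    exact sub_ne_zero.2 hz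
  obtain ⟨G, hG, hG0⟩ := lead_poly hX hX0 e (F := FV.map V.subtype) (L := Λ) (by
    refine hlim.congr fun z => ?_
    congr 1
    rw [hFV, line_map, add_sub_cancel]
    exact F.prod _ _)
  -- the polynomial over `V`
  have hdvd : (X : V[X]) ^ e ∣ FV := by
    rw [X_pow_dvd_iff]
    intro d hd
    have h1 := (X_pow_dvd_iff (f := FV.map V.subtype)).1 ⟨G, hG⟩ d hd
    rw [coeff_map] at h1
    exact Subtype.ext h1
  obtain ⟨GV, hGV⟩ := hdvd
  have hGG : G = GV.map V.subtype := by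
    have h1 : (X : ℂ[X]) ^ e * G = X ^ e * GV.map V.subtype := by
      rw [← hG, hGV, Polynomial.map_mul, Polynomial.map_pow, map_X]
    exact mul_left_cancel₀ (pow_ne_zero _ X_ne_zero) h1
  have hΛV : Λ = ((GV.eval 0 : V) : ℂ) := by
    rw [← hG0, hGG]
    have := eval₂_at_apply (p := GV) V.subtype 0
    rw [map_zero] at this
    rw [eval_map]
    exact this
  have hroot : FV.eval δ = 0 := by
    rw [hFV, line_eval]
    apply Subtype.ext
    have h1 := map_PsiE (ρV V) V.subtype F.Q (Fintype.card F.ι) (b + δ) (b' + θ * δ)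
    rw [Pool.Agent.N135.ZO.sub_comp] at h1
    obtain ⟨M, hM, hMrel⟩ := hrel
    have h2 := F.zero s.1 s'.1 (M 0 0) (M 0 1) (M 1 0) (M 1 1) (by rw [← det_eq, hM]) hMrel
    have e1 : V.subtype (b + δ) = jj s.1 := by
      rw [hδd, add_sub_cancel]
      rfl
    have e2 : V.subtype (b' + θ * δ) = jj s'.1 := by
      rw [← hθ, add_sub_cancel]
      rfl
    rw [e1, e2, h2] at h1
    exact h1
  have hroot2 : GV.eval δ = 0 := by
    rw [hGV, eval_mul, eval_pow, eval_X] at hroot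
    exact (mul_eq_zero.1 hroot).resolve_left (pow_ne_zero _ hδ0)
  have hle : V.valuation Λ ≤ V.valuation (δ : ℂ) := by
    obtain ⟨a, ha⟩ := sub_dvd_eval_sub δ 0 GV
    rw [hroot2, zero_sub, sub_zero] at ha
    have h1 : Λ = -((δ : ℂ) * a) := by
      rw [hΛV]
      have := congrArg (fun z : V => (z : ℂ)) ha
      push_cast at this
      linear_combination -this
    rw [h1, Valuation.map_neg, map_mul]
    calc V.valuation (δ : ℂ) * V.valuation (a : ℂ) ≤ V.valuation (δ : ℂ) * 1 :=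
          mul_le_mul_right (val_le a.2) _
      _ = _ := mul_one _
  have hlt : V.valuation Λ < V.valuation (p : ℂ) ^ Fintype.card F.ι := lt_of_le_of_lt hle hsm
  by_contra hcon
  have hge : ∀ k, V.valuation (p : ℂ) ≤ V.valuation (if jj (F.h k c.1) = (b' : ℂ) then (θ : ℂ) -
    der (F.mat k) c.1 * dd jj (F.h k c.1) / dd jj c.1 else (b' : ℂ) - jj (F.h k c.1)) := by
    intro k
    by_cases hk : jj (F.h k c.1) = (b' : ℂ)
    · rw [if_pos hk]
      refine hpV.le.trans ?_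
      by_contra hlt1
      push Not at hlt1
      have hσ : der (F.mat k) c.1 * dd jj (F.h k c.1) / dd jj c.1 * dd jj c.1 =
          der (F.mat k) c.1 * dd jj (F.h k c.1) := div_mul_cancel₀ _ hJ'
      refine hcon ⟨F.mat k, F.h k c.1, der (F.mat k) c.1 * dd jj (F.h k c.1) / dd jj c.1,
        F.det_mat k, F.rel_mat k c.1, hk, hσ, ?_, hlt1⟩
      refine val_ratio (P := P) (hdet k) ?_ (F.rel_mat k c.1) c.2 ?_ hσ
      · rw [F.det_mat]
        exact_mod_cast hNV
      · rw [hk]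
        exact c'.2
    · rw [if_neg hk]
      have hcmk : IsCM (F.h k c.1) := isCM_of_rel (hdet k) (F.rel_mat k c.1) hc
      have hneg : (b' : ℂ) - jj (F.h k c.1) = -(jj (F.h k c.1) - jj c'.1) := by
        rw [hb', xv_coe]
        ring
      rw [hneg, Valuation.map_neg]
      by_cases hlt1 : V.valuation (jj (F.h k c.1) - jj c'.1) < 1
      · obtain ⟨r, hr⟩ := cm_radius hl hl2 hpV P hc' hcmk c'.2 hlt1 hk
        rw [← hr]
        refine pow_le_of_le_one zero_le hlt1.le ?_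
        have := hl.two_le
        exact (Nat.mul_pos (by omega) (pow_pos hl.pos _)).ne'
      · push Not at hlt1
        exact hpV.le.trans hlt1
  have h2 : V.valuation (p : ℂ) ^ Fintype.card F.ι ≤ V.valuation Λ := by
    rw [hΛ, map_prod, ← Finset.card_univ, ← Finset.prod_const]
    exact Finset.prod_le_prod' fun k _ => hge k
  exact absurd hlt (not_lt.2 h2)

end Pool.Agent.U854.CL
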