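import Pool.Agent.U854.CL.Law

/-!
Iterated canonical quotients of isogenous points.
-/

set_option autoImplicit false

namespace Pool.Agent.U854.CL

open UpperHalfPlane H294ZP Function Polynomial Pool.Agent.N135.ZO
open Pool.Agent.Y226 (ZZ ιZ ιZ_apply)

variable {V : ValuationSubring ℂ} {p : ℕ}

/-- the points with good values -/
def TT {hl : 0 < p} (P : Pkg p hl) (V : ValuationSubring ℂ) : Type := {τ : ℍ // G0 P V (jj τ)}

section
variable {hl : 0 < p} {P : Pkg p hl}

/-- the value -/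
noncomputable def xv (s : TT P V) : V := ⟨jj s.1, s.2.mem⟩

theorem xv_coe (s : TT P V) : (xv s : ℂ) = jj s.1 := rfl

theorem xv_h (s : TT P V) : IsUnit (P.h.eval₂ (ρV V) (xv s)) := by
  rw [V.valuation_eq_one_iff, coe_e1]
  exact s.2.ord

theorem xv_0 (s : TT P V) : IsUnit (xv s) := by
  rw [V.valuation_eq_one_iff]
  exact s.2.n0

theorem xv_1 (s : TT P V) : IsUnit (xv s - 1728) := by
  rw [V.valuation_eq_one_iff]
  push_cast
  exact s.2.n1

end

/-- the canonical index -/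
def Can (hl : p.Prime) (V : ValuationSubring ℂ) (τ : ℍ) (k : Option (Fin p)) : Prop :=
  V.valuation (uu hl.pos k τ) = V.valuation (p : ℂ) ^ 12 ∧
    ∀ k', k' ≠ k → V.valuation (uu hl.pos k' τ) = 1

theorem can_of {hl : p.Prime} (hl2 : p ≠ 2) (hpV : V.valuation (p : ℂ) < 1) {P : Pkg p hl.pos}
    (s : TT P V) {k : Option (Fin p)}
    (hk : V.valuation (uu hl.pos k s.1) = V.valuation (p : ℂ) ^ 12) : Can hl V s.1 k := by
  obtain ⟨k', h1, h2⟩ := exists_can hl hl2 hpV P s.2.mem s.2.ord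
  have : k = k' := by
    by_contra hne
    rw [h2 k hne] at hk
    have h4 : V.valuation (p : ℂ) ^ 12 < 1 := pow_lt_one₀ zero_le hpV (by norm_num)
    rw [← hk] at h4
    exact lt_irrefl _ h4
  subst this
  exact ⟨h1, h2⟩

theorem exists_nx (hl : p.Prime) (hl2 : p ≠ 2) (hpV : V.valuation (p : ℂ) < 1) (P : Pkg p hl.pos)
    (s : TT P V) : ∃ s' : TT P V, ∃ k : Option (Fin p), Can hl V s.1 k ∧ s'.1 = hh hl.pos k s.1 := by
  obtain ⟨k, hk, hothers⟩ := exists_can hl hl2 hpV P s.2.mem s.2.ord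
  obtain ⟨h1, h2⟩ := can_next hl hpV s.2.mem hk P
  have hphi : IsPhi P (xv s) ⟨jj (hh hl.pos k s.1), h1⟩ := isPhi_of hl P hk rfl rfl
  obtain ⟨g0, g1⟩ := phi_res hl P hpV hphi (xv_h s) (xv_0 s) (xv_1 s)
  refine ⟨⟨hh hl.pos k s.1, ⟨h1, h2, ?_, ?_⟩⟩, k, ⟨hk, hothers⟩, rfl⟩
  · exact (V.valuation_eq_one_iff _).1 g0
  · have := (V.valuation_eq_one_iff _).1 g1
    push_cast at this
    exact this

/-- a step operator -/
structure Op (hl : p.Prime) (P : Pkg p hl.pos) (V : ValuationSubring ℂ) where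
  nx : TT P V → TT P V
  spec : ∀ s, ∃ k : Option (Fin p), Can hl V s.1 k ∧ (nx s).1 = hh hl.pos k s.1

theorem exists_op (hl : p.Prime) (hl2 : p ≠ 2) (hpV : V.valuation (p : ℂ) < 1)
    (P : Pkg p hl.pos) : Nonempty (Op hl P V) := by
  choose f hf using exists_nx hl hl2 hpV P
  exact ⟨⟨f, hf⟩⟩

variable {hl : p.Prime} {P : Pkg p hl.pos}

theorem Op.phi (S : Op hl P V) (s : TT P V) : IsPhi P (xv s) (xv (S.nx s)) := by
  obtain ⟨k, hk, hs⟩ := S.spec s
  exact isPhi_of hl P hk.1 rfl (by rw [xv_coe, hs])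

/-- related by a matrix of determinant `N` -/
def RN (N : ℤ) (s s' : ℍ) : Prop := ∃ M : M2, M.det = N ∧ Rel M s s'

theorem RN.symm {N : ℤ} {s s' : ℍ} (h : RN N s s') : RN N s' s := by
  obtain ⟨M, h1, h2⟩ := h
  exact ⟨M.adjugate, by rw [det_adj]; exact h1, rel_adj h2⟩

theorem RN.trans {N N' : ℤ} {s s' s'' : ℍ} (h : RN N s s') (h' : RN N' s' s'') :
    RN (N' * N) s s'' := by
  obtain ⟨M, h1, h2⟩ := h
  obtain ⟨M', h1', h2'⟩ := h'
  exact ⟨M' * M, by rw [det_mul', h1, h1'], h2.mul h2'⟩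

theorem can_unique (hpV : V.valuation (p : ℂ) < 1) {τ : ℍ} {k k' : Option (Fin p)}
    (h : Can hl V τ k) (hk' : V.valuation (uu hl.pos k' τ) = V.valuation (p : ℂ) ^ 12) : k' = k := by
  by_contra hne
  rw [h.2 k' hne] at hk'
  have h4 : V.valuation (p : ℂ) ^ 12 < 1 := pow_lt_one₀ zero_le hpV (by norm_num)
  rw [← hk'] at h4
  exact lt_irrefl _ h4

/-- isogenies of degree prime to `p` commute with the canonical quotient -/
theorem rel_nx (hpV : V.valuation (p : ℂ) < 1) {τ τ' : ℍ} (hτ : jj τ ∈ V)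
    {k k' : Option (Fin p)} (hk : Can hl V τ k) (hk' : Can hl V τ' k')
    {M : M2} (hM : 0 < M.det) (hMV : V.valuation (M.det : ℂ) = 1) (hrel : Rel M τ τ') :
    ∃ C : M2, C.det = M.det ∧ gk p k' * M = C * gk p k ∧ Rel C (hh hl.pos k τ) (hh hl.pos k' τ') := by
  have hlZ : (0 : ℤ) < p := by exact_mod_cast hl.pos
  have hr := hrel.mul (rel_hh hl.pos k' τ')
  have hApos : 0 < (gk p k' * M).det := by
    rw [det_mul', det_gk]
    positivity
  obtain ⟨k'', C, hC, hCpos, hCdet, hCrel, hCGG⟩ := exists_fac hApos hl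
    (by rw [det_mul', det_gk]; exact dvd_mul_right _ _) hr
  have hCN : C.det = M.det := by
    rw [det_mul', det_gk] at hCdet
    have : M.det * p = C.det * p := by rw [← hCdet]; ring
    exact (mul_right_cancel₀ hlZ.ne' this).symm
  have h1 := GG_mul (A := gk p k') (B := M) (by rw [det_gk]; exact hlZ) hM
    (z := hh hl.pos k' τ') hrel
  rw [hCGG] at h1
  have hw : jj (hh hl.pos k'' τ) ∈ V := rel_mem (M := gk p k'') (by rw [det_gk]; exact hlZ)
    (rel_hh hl.pos k'' τ) hτ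
  have v1 : V.valuation (GG M τ τ') = 1 := GG_unit hM hMV hrel hτ
  have v2 : V.valuation (GG C (hh hl.pos k'' τ) (hh hl.pos k' τ')) = 1 := GG_unit hCpos
    (by rw [hCN]; exact hMV) hCrel hw
  have h2 := congrArg V.valuation h1
  rw [map_mul, map_mul, v1, v2, one_mul, mul_one] at h2
  have h3 : GG (gk p k') τ' (hh hl.pos k' τ') = uu hl.pos k' τ' := rfl
  rw [h3, hk'.1] at h2
  have hkk := can_unique hpV hk h2
  subst hkk
  exact ⟨C, hCN, hC, hCrel⟩

theorem rn_nx (hpV : V.valuation (p : ℂ) < 1) (S : Op hl P V) {N : ℤ} (hN : 0 < N)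
    (hNV : V.valuation (N : ℂ) = 1) {s s' : TT P V} (h : RN N s.1 s'.1) :
    RN N (S.nx s).1 (S.nx s').1 := by
  obtain ⟨M, h1, h2⟩ := h
  obtain ⟨k, hk, hs⟩ := S.spec s
  obtain ⟨k', hk', hs'⟩ := S.spec s'
  obtain ⟨C, hC1, -, hC3⟩ := rel_nx hpV s.2.mem hk hk' (by rw [h1]; exact hN) (by rw [h1]; exact hNV) h2
  rw [hs, hs']
  exact ⟨C, by rw [hC1, h1], hC3⟩

theorem rn_nx_iter (hpV : V.valuation (p : ℂ) < 1) (S : Op hl P V) {N : ℤ} (hN : 0 < N)
    (hNV : V.valuation (N : ℂ) = 1) (m : ℕ) {s s' : TT P V} (h : RN N s.1 s'.1) :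
    RN N (S.nx^[m] s).1 (S.nx^[m] s').1 := by
  induction m with
  | zero => exact h
  | succ m ih =>
    rw [iterate_succ_apply', iterate_succ_apply']
    exact rn_nx hpV S hN hNV ih

/-- the image under a noncanonical isogeny is good, and its canonical quotient leads back -/
theorem noncan (hl2 : p ≠ 2) (hpV : V.valuation (p : ℂ) < 1) (S : Op hl P V) (s : TT P V)
    {k : Option (Fin p)} (hk : V.valuation (uu hl.pos k s.1) = 1) :
    ∃ w : TT P V, w.1 = hh hl.pos k s.1 ∧ RN 1 (S.nx w).1 s.1 := by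
  classical
  have hlZ : (0 : ℤ) < p := by exact_mod_cast hl.pos
  have hdet : 0 < (gk p k).det := by rw [det_gk]; exact hlZ
  have hw : jj (hh hl.pos k s.1) ∈ V := rel_mem hdet (rel_hh hl.pos k s.1) s.2.mem
  have hadj := rel_adj (rel_hh hl.pos k s.1)
  have hGG := GG_adj hdet (rel_hh hl.pos k s.1)
  obtain ⟨k', C, -, hCpos, hCdet, hCrel, hCGG⟩ := exists_fac (M := (gk p k).adjugate)
    (by rw [det_adj]; exact hdet) hl (by rw [det_adj, det_gk]) hadj
  have hC1 : C.det = 1 := by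
    rw [det_adj, det_gk] at hCdet
    have : (1 : ℤ) * p = C.det * p := by rw [one_mul]; exact hCdet
    exact (mul_right_cancel₀ hlZ.ne' this).symm
  rw [GG_sl hC1 hCrel, one_mul] at hCGG
  have h1 : uu hl.pos k' (hh hl.pos k s.1) * uu hl.pos k s.1 = (p : ℂ) ^ 12 := by
    have h2 : uu hl.pos k s.1 = GG (gk p k) s.1 (hh hl.pos k s.1) := rfl
    rw [h2, ← hCGG, hGG, det_gk]
    push_cast
    rfl
  have h3 : V.valuation (uu hl.pos k' (hh hl.pos k s.1)) = V.valuation (p : ℂ) ^ 12 := by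
    have := congrArg V.valuation h1
    rwa [map_mul, hk, map_pow, mul_one] at this
  -- another quotient is a unit
  have hpne : V.valuation (p : ℂ) ^ 12 ≠ 0 := by
    refine pow_ne_zero _ ?_
    rw [Valuation.ne_zero_iff]
    exact_mod_cast hl.ne_zero
  have hex : ∃ k'', V.valuation (uu hl.pos k'' (hh hl.pos k s.1)) = 1 := by
    obtain ⟨k'', hk''⟩ : ∃ k'' : Option (Fin p), k'' ≠ k' := by
      have : Nontrivial (Option (Fin p)) := by
        refine ⟨⟨none, some ⟨0, hl.pos⟩, by simp⟩⟩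
      exact exists_ne k'
    refine ⟨k'', ?_⟩
    have hprod := congrArg V.valuation (prod_uu hl hl2 (hh hl.pos k s.1))
    rw [map_prod, map_pow, ← Finset.mul_prod_erase _ _ (Finset.mem_univ k'), h3] at hprod
    have h5 : ∏ x ∈ Finset.univ.erase k', V.valuation (uu hl.pos x (hh hl.pos k s.1)) = 1 := by
      have : V.valuation (p : ℂ) ^ 12 * ∏ x ∈ Finset.univ.erase k',
          V.valuation (uu hl.pos x (hh hl.pos k s.1)) = V.valuation (p : ℂ) ^ 12 * 1 := by
        rw [mul_one]; exact hprod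
      exact mul_left_cancel₀ hpne this
    have hle : ∀ j, V.valuation (uu hl.pos j (hh hl.pos k s.1)) ≤ 1 := fun j => val_le (uu_mem hl j hw)
    refine le_antisymm (hle _) ?_
    rw [← h5, ← Finset.mul_prod_erase _ _ (Finset.mem_erase.2 ⟨hk'', Finset.mem_univ k''⟩)]
    calc _ ≤ V.valuation (uu hl.pos k'' (hh hl.pos k s.1)) * 1 := by
          refine mul_le_mul_right (Finset.prod_le_one' fun j _ => hle j) _
      _ = _ := mul_one _
  obtain ⟨k'', hk''⟩ := hex
  have hord := ord_of_unit hl hpV P hw k'' hk''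
  -- the value
  have hs' : jj (hh hl.pos k' (hh hl.pos k s.1)) = jj s.1 := (Rel.jj hC1 hCrel).symm
  have hphi : IsPhi P (V := V) ⟨jj (hh hl.pos k s.1), hw⟩ (xv s) :=
    isPhi_of hl P h3 rfl (by rw [xv_coe, hs'])
  have hxu : IsUnit (P.h.eval₂ (ρV V) (⟨jj (hh hl.pos k s.1), hw⟩ : V)) := by
    rw [V.valuation_eq_one_iff, coe_e1]
    exact hord
  obtain ⟨a, ha⟩ := phi_pow P hpV hphi hxu
  set x : V := ⟨jj (hh hl.pos k s.1), hw⟩ with hxd
  have hpu := not_unit_p hpV
  have hx0 : IsUnit x := by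
    by_contra hcon
    have h6 : ¬ IsUnit (xv s) := by
      rw [ha]
      refine nonunit_add ?_ (not_unit_mul hpu)
      rw [isUnit_pow_iff hl.ne_zero]
      exact hcon
    exact h6 (xv_0 s)
  have hx1 : IsUnit (x - 1728) := by
    by_contra hcon
    have h6 : ¬ IsUnit (xv s - 1728) := by
      obtain ⟨z, hz⟩ := val_p_dvd hl 1728
      have h3 := add_pow_prime_eq hl (x - 1728) 1728
      obtain ⟨r, hr⟩ : ∃ r, x ^ p = (x - 1728) ^ p + 1728 ^ p + p * r := by
        rw [sub_add_cancel] at h3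
        refine ⟨(x - 1728) * 1728 * ∑ k ∈ Finset.Ioo 0 p,
          (x - 1728) ^ (k - 1) * 1728 ^ (p - k - 1) * ↑(p.choose k / p), ?_⟩
        rw [h3]
        ring
      have hz' : (1728 : V) ^ p = 1728 + p * z := by
        have := congrArg (fun n : ℤ => (n : V)) hz
        push_cast at this
        exact this
      have e : xv s - 1728 = (x - 1728) ^ p + p * (z + r + a) := by
        rw [ha, hr, hz']
        ring
      rw [e]
      refine nonunit_add ?_ (not_unit_mul hpu)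
      rw [isUnit_pow_iff hl.ne_zero]
      exact hcon
    exact h6 (xv_1 s)
  have hG : G0 P V (jj (hh hl.pos k s.1)) := by
    refine ⟨hw, hord, (V.valuation_eq_one_iff _).1 hx0, ?_⟩
    have := (V.valuation_eq_one_iff _).1 hx1
    push_cast at this
    exact this
  refine ⟨⟨hh hl.pos k s.1, hG⟩, rfl, ?_⟩
  obtain ⟨κ, hκ, hs⟩ := S.spec ⟨hh hl.pos k s.1, hG⟩
  rw [hs]
  have := can_unique hpV hκ h3
  subst this
  exact ⟨C, hC1, hCrel⟩

theorem val_int (hl : p.Prime) (hpV : V.valuation (p : ℂ) < 1) {d : ℤ} (hd : ¬ (p : ℤ) ∣ d) :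
    V.valuation (d : ℂ) = 1 := by
  have hcop : IsCoprime d (p : ℤ) :=
    ((Nat.prime_iff_prime_int.1 hl).irreducible.coprime_iff_not_dvd.2 hd).symm
  obtain ⟨a, b, hab⟩ := hcop
  have h1 : (d : ℂ) * (a : ℂ) = 1 + (p : ℂ) * (-(b : ℂ)) := by
    have : ((a * d + b * p : ℤ) : ℂ) = ((1 : ℤ) : ℂ) := by rw [hab]
    push_cast at this
    linear_combination this
  have h2 : V.valuation (1 + (p : ℂ) * (-(b : ℂ))) = 1 :=
    val_add_one (map_one _) (lt_mul_mem hpV (V.neg_mem _ (intCast_mem V b)))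
  rw [← h1] at h2
  exact (val_mul_one (intCast_mem V _) (intCast_mem V _) h2).1

/-- isogenous points have iterated canonical quotients which are isogenous of degree prime to
`p` -/
theorem prime_to_p (hl2 : p ≠ 2) (hpV : V.valuation (p : ℂ) < 1) (S : Op hl P V) {M : M2}
    (hM : 0 < M.det) {s s' : TT P V} (h : Rel M s.1 s'.1) :
    ∃ (i j : ℕ) (N : ℤ), 0 < N ∧ V.valuation (N : ℂ) = 1 ∧ RN N (S.nx^[i] s).1 (S.nx^[j] s').1 := by
  have hlZ : (0 : ℤ) < p := by exact_mod_cast hl.pos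
  obtain ⟨n, hn⟩ : ∃ n : ℕ, M.det.toNat = n := ⟨_, rfl⟩
  induction n using Nat.strong_induction_on generalizing M s with
  | _ n ih =>
    have hMn : M.det = n := by omega
    by_cases hdvd : (p : ℤ) ∣ M.det
    · obtain ⟨k, C, -, hCpos, hCdet, hCrel, -⟩ := exists_fac hM hl hdvd h
      have hlt : C.det.toNat < n := by
        have h2 := hl.two_le
        have h3 : C.det * p = n := by rw [← hCdet, hMn]
        have h4 : C.det * 2 ≤ C.det * p := mul_le_mul_of_nonneg_left (by exact_mod_cast h2) hCpos.le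
        omega
      obtain ⟨κ, hκ, hs⟩ := S.spec s
      by_cases hkκ : k = κ
      · subst hkκ
        rw [← hs] at hCrel
        obtain ⟨i, j, N, h1, h2, h3⟩ := ih _ hlt hCpos hCrel rfl
        refine ⟨i + 1, j, N, h1, h2, ?_⟩
        rw [iterate_succ_apply]
        exact h3
      · obtain ⟨w, hw, hw2⟩ := noncan hl2 hpV S s (hκ.2 k hkκ)
        rw [← hw] at hCrel
        obtain ⟨i, j, N, h1, h2, h3⟩ := ih _ hlt hCpos hCrel rfl
        have h4 : RN N (S.nx^[i + 1] w).1 (S.nx^[j + 1] s').1 := by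
          rw [iterate_succ_apply', iterate_succ_apply']
          exact rn_nx hpV S h1 h2 h3
        rw [iterate_succ_apply] at h4
        have h5 := rn_nx_iter hpV S (N := 1) one_pos (by simp) i hw2
        have h6 := h5.symm.trans h4
        rw [mul_one] at h6
        exact ⟨i, j + 1, N, h1, h2, h6⟩
    · exact ⟨0, 0, M.det, hM, val_int hl hpV hdvd, M, rfl, h⟩

end Pool.Agent.U854.CL
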