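import Pool.Agent.U854.CL.Lead

/-!
Complex numbers which are near to rational numbers.
-/

set_option autoImplicit false

namespace Pool.Agent.U854.CL

open UpperHalfPlane H294ZP Function Polynomial Pool.Agent.N135.ZO

variable {V : ValuationSubring ℂ} {p : ℕ}

/-- `z` is the product of a nonzero rational number and an element of `1 + 𝔪` -/
def RL (V : ValuationSubring ℂ) (z : ℂ) : Prop :=
  ∃ r : ℚ, V.valuation (z - r) < V.valuation (r : ℂ)

theorem val_of_near {z r : ℂ} (h : V.valuation (z - r) < V.valuation r) :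
    V.valuation z = V.valuation r := by
  have e : z = r + (z - r) := by ring
  rw [e, Valuation.map_add_eq_of_lt_left _ h]

theorem near_ne {z r : ℂ} (h : V.valuation (z - r) < V.valuation r) : r ≠ 0 := by
  rintro rfl
  rw [map_zero] at h
  exact absurd h (not_lt.2 zero_le)

theorem RL.mul {z z' : ℂ} (h : RL V z) (h' : RL V z') : RL V (z * z') := by
  obtain ⟨r, hr⟩ := h
  obtain ⟨r', hr'⟩ := h'
  refine ⟨r * r', ?_⟩
  have h1 := val_of_near hr'
  have h0 := V.valuation.ne_zero_iff.2 (near_ne hr)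
  have h0' := V.valuation.ne_zero_iff.2 (near_ne hr')
  have e : z * z' - ((r * r' : ℚ) : ℂ) = (z - r) * z' + r * (z' - r') := by
    push_cast
    ring
  rw [e]
  refine lt_of_le_of_lt (Valuation.map_add _ _ _) ?_
  push_cast
  rw [map_mul, map_mul, map_mul, h1]
  refine max_lt ?_ ?_
  · exact mul_lt_mul_of_pos_right hr (zero_lt_iff.2 h0')
  · exact mul_lt_mul_of_pos_left hr' (zero_lt_iff.2 h0)

theorem RL.inv {z : ℂ} (h : RL V z) : RL V z⁻¹ := by
  obtain ⟨r, hr⟩ := h
  refine ⟨r⁻¹, ?_⟩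
  have h1 := val_of_near hr
  have hr0 := near_ne hr
  have h0 := V.valuation.ne_zero_iff.2 hr0
  have hz0 : z ≠ 0 := by
    rintro rfl
    rw [map_zero] at h1
    exact h0 h1.symm
  have e : z⁻¹ - ((r⁻¹ : ℚ) : ℂ) = -((z - r) * (z * r)⁻¹) := by
    push_cast
    field_simp
    ring
  rw [e, Valuation.map_neg, map_mul, map_inv₀, map_mul, h1]
  push_cast
  rw [map_inv₀]
  have h2 : V.valuation (z - r) * (V.valuation (r : ℂ) * V.valuation (r : ℂ))⁻¹ <
      V.valuation (r : ℂ) * (V.valuation (r : ℂ) * V.valuation (r : ℂ))⁻¹ := by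
    refine mul_lt_mul_of_pos_right hr (zero_lt_iff.2 (inv_ne_zero (mul_ne_zero h0 h0)))
  refine h2.trans_le (le_of_eq ?_)
  rw [mul_inv, ← mul_assoc, mul_inv_cancel₀ h0, one_mul]

theorem RL.div {z z' : ℂ} (h : RL V z) (h' : RL V z') : RL V (z / z') := by
  rw [div_eq_mul_inv]
  exact h.mul h'.inv

theorem rl_rat {q : ℚ} (hq : q ≠ 0) : RL V (q : ℂ) := by
  refine ⟨q, ?_⟩
  rw [sub_self, map_zero]
  exact zero_lt_iff.2 (V.valuation.ne_zero_iff.2 (by exact_mod_cast hq))

theorem RL.congr {z z' : ℂ} (h : RL V z) (hz : V.valuation (z' - z) < V.valuation z) :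
    RL V z' := by
  obtain ⟨r, hr⟩ := h
  refine ⟨r, ?_⟩
  rw [val_of_near hr] at hz
  have e : z' - r = (z' - z) + (z - r) := by ring
  rw [e]
  exact lt_of_le_of_lt (Valuation.map_add _ _ _) (max_lt hz hr)

theorem rl_of_near {z : ℂ} {q : ℚ} (h : V.valuation (z - q) < V.valuation z) : RL V z := by
  refine ⟨q, ?_⟩
  have h1 : V.valuation (q : ℂ) = V.valuation z := by
    have e : (q : ℂ) = z + -(z - q) := by ring
    rw [e, Valuation.map_add_eq_of_lt_left _ (by rwa [Valuation.map_neg])]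
  rwa [h1]

theorem val_int_pow (hl : p.Prime) (hpV : V.valuation (p : ℂ) < 1) {d : ℤ} (hd : d ≠ 0) :
    ∃ k : ℕ, V.valuation (d : ℂ) = V.valuation (p : ℂ) ^ k := by
  obtain ⟨c, hdc, hc⟩ := (FiniteMultiplicity.of_not_isUnit (a := (p : ℤ)) (b := d)
      (Nat.prime_iff_prime_int.1 hl).not_unit hd).exists_eq_pow_mul_and_not_dvd
  refine ⟨multiplicity (p : ℤ) d, ?_⟩
  nth_rw 1 [hdc]
  push_cast
  rw [map_mul, map_pow, val_int hl hpV hc, mul_one]

/-- a nonzero algebraic number is not too small -/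
theorem val_alg (hl : p.Prime) (hpV : V.valuation (p : ℂ) < 1) {z : ℂ} (hz : IsAlgebraic ℚ z)
    (hz0 : z ≠ 0) : ∃ k : ℕ, V.valuation (p : ℂ) ^ k ≤ V.valuation z := by
  have h1 : IsAlgebraic ℤ z⁻¹ := (IsFractionRing.isAlgebraic_iff ℤ ℚ ℂ).2 hz.inv
  obtain ⟨y, hy, hint⟩ := h1.exists_integral_multiple
  have h2 := mem_of_integral_int V hint
  obtain ⟨k, hk⟩ := val_int_pow hl hpV hy
  refine ⟨k, ?_⟩
  rw [← hk]
  have h3 : V.valuation ((y : ℂ) * z⁻¹) ≤ 1 := by
    rw [V.valuation_le_one_iff]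
    simpa [zsmul_eq_mul] using h2
  have e : (y : ℂ) = (y : ℂ) * z⁻¹ * z := by
    rw [mul_assoc, inv_mul_cancel₀ hz0, mul_one]
  rw [e, map_mul]
  calc V.valuation ((y : ℂ) * z⁻¹) * V.valuation z ≤ 1 * V.valuation z :=
        mul_le_mul_left h3 _
    _ = _ := one_mul _

/-- unit roots of quadratic polynomials are near to rational numbers -/
theorem unit_root (hpV : V.valuation (p : ℂ) < 1) {T : ℤ} {e : ℕ} (he : 0 < e)
    {u : ℂ} (hu : V.valuation u = 1)
    (hq : u ^ 2 = T * u - (p : ℂ) ^ e) (n : ℕ) :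
    ∃ r : ℚ, V.valuation (r : ℂ) = 1 ∧ V.valuation (u - r) ≤ V.valuation (p : ℂ) ^ (n + 1) := by
  have hu0 : u ≠ 0 := by
    rintro rfl
    rw [map_zero] at hu
    exact zero_ne_one hu
  have hpe : V.valuation (p : ℂ) ^ e ≤ V.valuation (p : ℂ) := by
    calc V.valuation (p : ℂ) ^ e ≤ V.valuation (p : ℂ) ^ 1 := pow_le_pow_right_of_le_one' hpV.le he
      _ = _ := pow_one _
  have hu1 : u = T - (p : ℂ) ^ e / u := by
    field_simp
    linear_combination hq
  have close : ∀ r : ℚ, V.valuation (u - r) < 1 → V.valuation (r : ℂ) = 1 := by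
    intro r hr
    have e1 : (r : ℂ) = u + -(u - r) := by ring
    rw [e1, Valuation.map_add_eq_of_lt_left _ (by rwa [Valuation.map_neg, hu]), hu]
  induction n with
  | zero =>
    have h1 : V.valuation (u - (T : ℚ)) ≤ V.valuation (p : ℂ) ^ (0 + 1) := by
      have e1 : u - ((T : ℚ) : ℂ) = -((p : ℂ) ^ e / u) := by
        push_cast
        linear_combination hu1
      rw [e1, Valuation.map_neg, map_div₀, hu, div_one, map_pow, zero_add, pow_one]
      exact hpe
    refine ⟨T, close _ (lt_of_le_of_lt h1 ?_), h1⟩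
    rwa [zero_add, pow_one]
  | succ n ih =>
    obtain ⟨r, hr, hur⟩ := ih
    have hr0 : (r : ℂ) ≠ 0 := by
      intro h
      rw [h, map_zero] at hr
      exact zero_ne_one hr
    have h1 : V.valuation (u - ((T - (p : ℚ) ^ e / r : ℚ) : ℂ)) ≤
        V.valuation (p : ℂ) ^ (n + 1 + 1) := by
      have e1 : u - ((T - (p : ℚ) ^ e / r : ℚ) : ℂ) = (p : ℂ) ^ e * (u - r) / (u * r) := by
        push_cast
        nth_rw 1 [hu1]
        field_simp
        ring
      rw [e1, map_div₀, map_mul, map_mul, hu, hr, one_mul, div_one, map_pow, pow_succ']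
      exact mul_le_mul' hpe hur
    refine ⟨_, close _ (lt_of_le_of_lt h1 ?_), h1⟩
    exact pow_lt_one₀ zero_le hpV (Nat.succ_ne_zero _)

/-- the elements of `ℚ(τ)` for an ordinary CM point `τ` -/
theorem rl_of_ord (hl : p.Prime) (hpV : V.valuation (p : ℂ) < 1) {τ : ℍ} (h : OrdAt p τ)
    {a b : ℚ} (hne : (a : ℂ) + b * τ ≠ 0) : RL V ((a : ℂ) + b * τ) := by
  obtain ⟨e, M, he, hdet, htr, hfix⟩ := h
  have hpZ : Prime (p : ℤ) := Nat.prime_iff_prime_int.1 hl
  have hMpos : 0 < M.det := by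
    rw [hdet]
    have : (0 : ℤ) < p := by exact_mod_cast hl.pos
    positivity
  have hfix' := hfix
  unfold Pool.Agent.N135.ZO.Rel Pool.Agent.N135.ZO.den Pool.Agent.N135.ZO.num at hfix'
  rw [det_eq] at hdet
  rw [Matrix.trace_fin_two] at htr
  have htrV := val_int hl hpV htr
  generalize M 0 0 = A at *
  generalize M 0 1 = B at *
  generalize M 1 0 = C at *
  generalize M 1 1 = D at *
  have hC0 : C ≠ 0 := by
    intro hC
    rw [hC] at hfix' hdet
    have him := congrArg Complex.im hfix'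
    have hy : τ.im ≠ 0 := τ.im_pos.ne'
    simp at him
    have hAD : A = D := by
      have h2 : τ.im * (D : ℝ) = τ.im * A := by
        rw [mul_comm τ.im (A : ℝ)]
        exact him
      exact_mod_cast (mul_left_cancel₀ hy h2).symm
    rw [hAD, mul_zero, sub_zero] at hdet
    have h3 : (p : ℤ) ∣ D * D := by
      rw [hdet]
      exact dvd_pow_self _ he.ne'
    have h4 : (p : ℤ) ∣ D := (hpZ.dvd_or_dvd h3).elim id id
    exact htr (by rw [hAD]; exact dvd_add h4 h4)
  have hCC : (C : ℂ) ≠ 0 := by exact_mod_cast hC0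
  set l : ℂ := C * τ + D with hl_def
  have hdetC : (A : ℂ) * D - B * C = (p : ℂ) ^ e := by exact_mod_cast congrArg (fun z : ℤ => (z : ℂ)) hdet
  have hquad : l ^ 2 = ((A + D : ℤ) : ℂ) * l - (p : ℂ) ^ e := by
    rw [hl_def, ← hdetC]
    push_cast
    linear_combination (C : ℂ) * hfix'
  have hint : IsIntegral ℤ l := by
    refine ⟨X ^ 2 - Polynomial.C (A + D) * X + Polynomial.C ((p : ℤ) ^ e), ?_, ?_⟩
    · monicity!
    · simp only [eval₂_add, eval₂_sub, eval₂_mul, eval₂_pow, eval₂_X, eval₂_C]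
      push_cast
      rw [hquad]
      push_cast
      simp
  have hlV : l ∈ V := mem_of_integral_int V hint
  -- approximations of `l`
  have happ : ∀ n : ℕ, ∃ r : ℚ, V.valuation (l - r) ≤ V.valuation (p : ℂ) ^ (n + 1) := by
    intro n
    rcases eq_or_lt_of_le (val_le hlV) with h1 | h1
    · obtain ⟨r, -, hr⟩ := unit_root hpV he h1 hquad n
      exact ⟨r, hr⟩
    · have h2 : V.valuation (((A + D : ℤ) : ℂ) - l) = 1 := by
        rw [sub_eq_add_neg]
        exact val_add_one htrV (by rwa [Valuation.map_neg])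
      obtain ⟨r, -, hr⟩ := unit_root (u := ((A + D : ℤ) : ℂ) - l) hpV he h2
        (by linear_combination hquad) n
      refine ⟨(A + D : ℤ) - r, ?_⟩
      have e1 : l - (((A + D : ℤ) - r : ℚ) : ℂ) = -(((A + D : ℤ) : ℂ) - l - r) := by
        push_cast
        ring
      rw [e1, Valuation.map_neg]
      exact hr
  -- the linear expression in `l`
  set b' : ℚ := b / C with hb'
  set a' : ℚ := a - b' * D with ha'
  have hz : (a : ℂ) + b * τ = a' + b' * l := by
    rw [ha', hb', hl_def]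
    push_cast
    field_simp
    ring
  rw [hz] at hne ⊢
  by_cases hb0 : b' = 0
  · rw [hb0] at hne ⊢
    simp only [Rat.cast_zero, zero_mul, add_zero] at hne ⊢
    exact rl_rat (by exact_mod_cast hne)
  have halg : IsAlgebraic ℚ ((a' : ℂ) + b' * l) := by
    have h1 : IsAlgebraic ℚ l := (hint.tower_top (A := ℚ)).isAlgebraic
    exact (isAlgebraic_algebraMap (R := ℚ) (A := ℂ) a').add
      ((isAlgebraic_algebraMap (R := ℚ) (A := ℂ) b').mul h1)
  obtain ⟨k, hk⟩ := val_alg hl hpV halg hne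
  obtain ⟨k', hk'⟩ := val_alg hl hpV (z := ((b' : ℂ))⁻¹)
    ((isAlgebraic_algebraMap (R := ℚ) (A := ℂ) b').inv) (inv_ne_zero (by exact_mod_cast hb0))
  obtain ⟨r, hr⟩ := happ (k + k')
  have hp0 : V.valuation (p : ℂ) ≠ 0 := by
    rw [Valuation.ne_zero_iff]
    exact_mod_cast hl.ne_zero
  have hb1 : V.valuation (b' : ℂ) * V.valuation (p : ℂ) ^ k' ≤ 1 := by
    have h1 : V.valuation (b' : ℂ) ≠ 0 := V.valuation.ne_zero_iff.2 (by exact_mod_cast hb0)
    calc V.valuation (b' : ℂ) * V.valuation (p : ℂ) ^ k' ≤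
        V.valuation (b' : ℂ) * V.valuation ((b' : ℂ))⁻¹ := mul_le_mul_right hk' _
      _ = 1 := by rw [map_inv₀, mul_inv_cancel₀ h1]
  refine rl_of_near (q := a' + b' * r) ?_
  have e1 : (a' : ℂ) + b' * l - ((a' + b' * r : ℚ) : ℂ) = b' * (l - r) := by
    push_cast
    ring
  rw [e1, map_mul]
  calc V.valuation (b' : ℂ) * V.valuation (l - r) ≤
      V.valuation (b' : ℂ) * V.valuation (p : ℂ) ^ (k + k' + 1) := mul_le_mul_right hr _
    _ = V.valuation (b' : ℂ) * V.valuation (p : ℂ) ^ k' * V.valuation (p : ℂ) ^ (k + 1) := by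
        rw [mul_assoc, ← pow_add]
        congr 2
        ring
    _ ≤ 1 * V.valuation (p : ℂ) ^ (k + 1) := mul_le_mul_left hb1 _
    _ = V.valuation (p : ℂ) ^ k * V.valuation (p : ℂ) := by rw [one_mul, pow_succ]
    _ < V.valuation (p : ℂ) ^ k * 1 := mul_lt_mul_of_pos_left hpV (zero_lt_iff.2 (pow_ne_zero _ hp0))
    _ = V.valuation (p : ℂ) ^ k := mul_one _
    _ ≤ _ := hk

end Pool.Agent.U854.CL
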