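import Mathlib

/-!
A lattice is determined by its invariants `g₂` and `g₃`.
-/

set_option autoImplicit false

namespace Pool.Agent.U854.CL

open PeriodPair Filter Topology

variable (L : PeriodPair)

theorem wp_eq (z : ℂ) : ℘[L] z = ℘[L - (0 : ℂ)] z + 1 / z ^ 2 := by
  have h := L.weierstrassPExcept_add 0 z
  simp only [ZeroMemClass.coe_zero, sub_zero] at h
  rw [← h]
  simp

theorem wpd_eq (z : ℂ) : ℘'[L] z = ℘'[L - (0 : ℂ)] z - 2 / z ^ 3 := by
  have h := L.derivWeierstrassPExcept_sub 0 z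
  simp only [ZeroMemClass.coe_zero, sub_zero] at h
  exact h.symm

theorem not_mem_near : ∀ᶠ z in 𝓝[≠] (0 : ℂ), z ∉ L.lattice := by
  filter_upwards [self_mem_nhdsWithin, mem_nhdsWithin_of_mem_nhds
    (L.compl_lattice_sdiff_singleton_mem_nhds (0 : ℂ))] with w hw hw'
  intro h
  exact hw' ⟨h, hw⟩

theorem not_mem_near' (l : ℂ) : ∀ᶠ z in 𝓝[≠] l, z ∉ L.lattice := by
  filter_upwards [self_mem_nhdsWithin, mem_nhdsWithin_of_mem_nhds
    (L.compl_lattice_sdiff_singleton_mem_nhds l)] with w hw hw'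
  intro h
  exact hw' ⟨h, hw⟩

theorem deriv_near : ∀ᶠ z in 𝓝 (0 : ℂ), deriv ℘[L - (0 : ℂ)] z = ℘'[L - (0 : ℂ)] z := by
  filter_upwards [L.compl_lattice_sdiff_singleton_mem_nhds (0 : ℂ)] with z hz
  exact L.eqOn_deriv_weierstrassPExcept_derivWeierstrassPExcept 0 hz

/-- near `0` the two functions agree -/
theorem wp_near {L L' : PeriodPair} (h2 : L.g₂ = L'.g₂) (h3 : L.g₃ = L'.g₃) :
    ∀ᶠ z in 𝓝 (0 : ℂ), ℘[L - (0 : ℂ)] z - ℘[L' - (0 : ℂ)] z = 0 := by
  set f := ℘[L - (0 : ℂ)] with hf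
  set g := ℘[L' - (0 : ℂ)] with hg
  set f' := ℘'[L - (0 : ℂ)] with hf'
  set g' := ℘'[L' - (0 : ℂ)] with hg'
  have af : AnalyticAt ℂ f 0 := L.analyticAt_weierstrassPExcept 0
  have ag : AnalyticAt ℂ g 0 := L'.analyticAt_weierstrassPExcept 0
  have af' : AnalyticAt ℂ f' 0 := L.analyticAt_derivWeierstrassPExcept 0
  have ag' : AnalyticAt ℂ g' 0 := L'.analyticAt_derivWeierstrassPExcept 0
  have ad : AnalyticAt ℂ (fun z => f z - g z) 0 := af.sub ag
  by_contra hcon
  obtain ⟨n, u, hu, hu0, hn⟩ := ad.exists_eventuallyEq_pow_smul_nonzero_iff.2 hcon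
  simp only [sub_zero, smul_eq_mul] at hn
  have hn' : (fun z => f z - g z) =ᶠ[𝓝 0] fun z => z ^ n * u z := hn
  have hderiv := hn'.deriv
  have key : ∀ᶠ z in 𝓝[≠] (0 : ℂ), ((n : ℂ) * u z + z * deriv u z) * (-4 + z ^ 3 * (f' z + g' z)) =
      u z * (4 * ((1 + z ^ 2 * f z) ^ 2 + (1 + z ^ 2 * f z) * (1 + z ^ 2 * g z) +
        (1 + z ^ 2 * g z) ^ 2) - L.g₂ * z ^ 4) := by
    filter_upwards [not_mem_near L, not_mem_near L', self_mem_nhdsWithin,
      mem_nhdsWithin_of_mem_nhds hn, mem_nhdsWithin_of_mem_nhds hderiv,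
      mem_nhdsWithin_of_mem_nhds (deriv_near L), mem_nhdsWithin_of_mem_nhds (deriv_near L'),
      mem_nhdsWithin_of_mem_nhds af.eventually_analyticAt,
      mem_nhdsWithin_of_mem_nhds ag.eventually_analyticAt,
      mem_nhdsWithin_of_mem_nhds hu.eventually_analyticAt] with z m1 m2 hz e1 e2 d1 d2 a1 a2 a3
    have hz0 : z ≠ 0 := hz
    have r1 := L.derivWeierstrassP_sq z m1
    have r2 := L'.derivWeierstrassP_sq z m2
    rw [← h2, ← h3] at r2
    rw [wp_eq, wpd_eq] at r1 r2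
    change deriv f z = f' z at d1
    change deriv g z = g' z at d2
    change (f' z - 2 / z ^ 3) ^ 2 = 4 * (f z + 1 / z ^ 2) ^ 3 - L.g₂ * (f z + 1 / z ^ 2) - L.g₃ at r1
    change (g' z - 2 / z ^ 3) ^ 2 = 4 * (g z + 1 / z ^ 2) ^ 3 - L.g₂ * (g z + 1 / z ^ 2) - L.g₃ at r2
    have e3 : deriv (fun z => f z - g z) z = f' z - g' z := by
      rw [deriv_fun_sub a1.differentiableAt a2.differentiableAt, d1, d2]
    have e4 : deriv (fun z => z ^ n * u z) z = n * z ^ (n - 1) * u z + z ^ n * deriv u z := by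
      have h1 := (hasDerivAt_pow n z).mul a3.differentiableAt.hasDerivAt
      exact h1.deriv
    have e5 : f' z - g' z = n * z ^ (n - 1) * u z + z ^ n * deriv u z := by
      rw [← e3, ← e4]
      exact e2
    have e6 : z * (f' z - g' z) = z ^ n * (n * u z + z * deriv u z) := by
      rw [e5]
      rcases Nat.eq_zero_or_pos n with hn0 | hn0
      · rw [hn0]
        simp
      · have : z * z ^ (n - 1) = z ^ n := by
          rw [← pow_succ']
          congr 1
          omega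
        linear_combination (n : ℂ) * u z * this
    have hzn : z ^ n ≠ 0 := pow_ne_zero _ hz0
    apply mul_left_cancel₀ hzn
    have e7 : z ^ n * ((n : ℂ) * u z + z * deriv u z) * (-4 + z ^ 3 * (f' z + g' z)) =
        z ^ n * u z * (4 * ((1 + z ^ 2 * f z) ^ 2 + (1 + z ^ 2 * f z) * (1 + z ^ 2 * g z) +
        (1 + z ^ 2 * g z) ^ 2) - L.g₂ * z ^ 4) := by
      rw [← e6, ← e1]
      field_simp at r1 r2
      have hz3 : z ^ 3 ≠ 0 := pow_ne_zero _ hz0
      have hz2 : z ^ 2 ≠ 0 := pow_ne_zero _ hz0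
      apply mul_left_cancel₀ hz2
      linear_combination r1 - r2
    rw [← mul_assoc, ← mul_assoc, e7]
  have cu : ContinuousAt u 0 := hu.continuousAt
  have cu' : ContinuousAt (deriv u) 0 := hu.deriv.continuousAt
  have cf := af.continuousAt
  have cg := ag.continuousAt
  have cf' := af'.continuousAt
  have cg' := ag'.continuousAt
  have t1 : Tendsto (fun z => ((n : ℂ) * u z + z * deriv u z) * (-4 + z ^ 3 * (f' z + g' z)))
      (𝓝 0) (𝓝 (((n : ℂ) * u 0 + 0 * deriv u 0) * (-4 + 0 ^ 3 * (f' 0 + g' 0)))) := by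
    have : ContinuousAt (fun z => ((n : ℂ) * u z + z * deriv u z) *
      (-4 + z ^ 3 * (f' z + g' z))) 0 := by fun_prop
    exact this
  have t2 : Tendsto (fun z => u z * (4 * ((1 + z ^ 2 * f z) ^ 2 +
      (1 + z ^ 2 * f z) * (1 + z ^ 2 * g z) + (1 + z ^ 2 * g z) ^ 2) - L.g₂ * z ^ 4))
      (𝓝 0) (𝓝 (u 0 * (4 * ((1 + 0 ^ 2 * f 0) ^ 2 +
      (1 + 0 ^ 2 * f 0) * (1 + 0 ^ 2 * g 0) + (1 + 0 ^ 2 * g 0) ^ 2) - L.g₂ * 0 ^ 4))) := by
    have : ContinuousAt (fun z => u z * (4 * ((1 + z ^ 2 * f z) ^ 2 +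
      (1 + z ^ 2 * f z) * (1 + z ^ 2 * g z) + (1 + z ^ 2 * g z) ^ 2) - L.g₂ * z ^ 4)) 0 := by
      fun_prop
    exact this
  have e := tendsto_nhds_unique_of_eventuallyEq (t1.mono_left nhdsWithin_le_nhds)
    (t2.mono_left nhdsWithin_le_nhds) key
  have e8 : u 0 * (4 * (n : ℂ) + 12) = 0 := by
    linear_combination -e
  rcases mul_eq_zero.1 e8 with h | h
  · exact hu0 h
  · have : ((4 * n + 12 : ℕ) : ℂ) = 0 := by
      push_cast
      exact h
    have h4 : 4 * n + 12 = 0 := by exact_mod_cast this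
    omega

theorem countable_lattice : (L.lattice : Set ℂ).Countable := by
  have : Countable L.lattice := L.latticeEquivProd.toEquiv.countable_iff.2 inferInstance
  exact Set.countable_coe_iff.1 this

theorem lattice_le {L L' : PeriodPair} (h2 : L.g₂ = L'.g₂) (h3 : L.g₃ = L'.g₃) :
    L.lattice ≤ L'.lattice := by
  intro l hl
  by_contra hl'
  set s : Set ℂ := (L.lattice : Set ℂ) ∪ L'.lattice with hs
  have hsc : s.Countable := (countable_lattice L).union (countable_lattice L')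
  have hconn : IsPreconnected sᶜ :=
    (hsc.isConnected_compl_of_one_lt_rank (by simp)).isPreconnected
  have h1 : AnalyticOnNhd ℂ ℘[L] sᶜ := L.analyticOnNhd_weierstrassP.mono fun z hz h =>
    hz (Or.inl h)
  have h2' : AnalyticOnNhd ℂ ℘[L'] sᶜ := L'.analyticOnNhd_weierstrassP.mono fun z hz h =>
    hz (Or.inr h)
  have near0 : ∀ᶠ z in 𝓝[≠] (0 : ℂ), ℘[L] z = ℘[L'] z := by
    filter_upwards [mem_nhdsWithin_of_mem_nhds (wp_near h2 h3)] with z hz
    rw [wp_eq, wp_eq]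
    linear_combination hz
  rw [← eventually_eventually_nhdsWithin] at near0
  obtain ⟨z0, hz0, hz1, hz2, hz3⟩ := (near0.and ((not_mem_near L).and ((not_mem_near L').and
    self_mem_nhdsWithin))).exists
  have hz3' : z0 ∈ ({0}ᶜ : Set ℂ) := hz3
  rw [isOpen_compl_singleton.nhdsWithin_eq hz3'] at hz0
  have heq : Set.EqOn ℘[L] ℘[L'] sᶜ := h1.eqOn_of_preconnected_of_eventuallyEq h2' hconn
    (z₀ := z0) (fun h => h.elim hz1 hz2) hz0
  have hcongr : ℘[L] =ᶠ[𝓝[≠] l] ℘[L'] := by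
    filter_upwards [not_mem_near' L l, not_mem_near' L' l] with z m1 m2
    exact heq fun h => h.elim m1 m2
  have h4 := L.order_weierstrassP l hl
  rw [meromorphicOrderAt_congr hcongr] at h4
  have h5 := (L'.analyticOnNhd_weierstrassP l hl').meromorphicOrderAt_nonneg
  rw [h4] at h5
  exact absurd h5 (by decide)

/-- A lattice is determined by its invariants. -/
theorem lattice_unique {L L' : PeriodPair} (h2 : L.g₂ = L'.g₂) (h3 : L.g₃ = L'.g₃) :
    L.lattice = L'.lattice :=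
  le_antisymm (lattice_le h2 h3) (lattice_le h2.symm h3.symm)

end Pool.Agent.U854.CL
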